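import Pool.Agent.Work.MP_b41eab_39.SingB

namespace Pool.Agent.Work.MP_b41eab_39

open Cardinal Set
open scoped Pointwise

universe u

theorem small_nat {G : Type u} {θ : Cardinal.{u}} (hθ : ℵ₀ ≤ θ) (n : ℕ) (Q : ℕ → G → Prop)
    (h : ∀ t < n, #{x | Q t x} < θ) : #{x | ∃ t < n, Q t x} < θ := by
  induction n with
  | zero =>
    refine small_subset (T := ∅) ?_ (small_empty' hθ)
    rintro x ⟨t, ht, -⟩
    exact (Nat.not_lt_zero t ht).elim
  | succ n ih =>
    refine small_subset ?_ (small_union hθ (ih fun t ht => h t (by omega)) (h n (by omega)))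
    rintro x ⟨t, ht, hx⟩
    rcases Nat.lt_succ_iff_lt_or_eq.1 ht with h1 | h1
    · exact Or.inl ⟨t, h1, hx⟩
    · subst h1
      exact Or.inr hx

/-- The equations with one other letter. -/
def SC {G : Type u} [Group G] (g : G) : ℕ → G → Set G
  | 0, b => {x | x * x * x * b = g}
  | 1, b => {x | x * x * b * x = g}
  | 2, b => {x | x * b * x * x = g}
  | 3, b => {x | b * x * x * x = g}
  | _, _ => ∅

theorem SC_disj {G : Type u} [Group G] (g : G) (t : ℕ) (p q : G) (h : p ≠ q) :
    SC g t p ∩ SC g t q ⊆ ∅ := by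
  rintro x ⟨h1, h2⟩
  match t with
  | 0 =>
    have h1 : x * x * x * p = g := h1
    have h2 : x * x * x * q = g := h2
    rw [← h2] at h1
    exact h (by simpa using h1)
  | 1 =>
    have h1 : x * x * p * x = g := h1
    have h2 : x * x * q * x = g := h2
    rw [← h2] at h1
    exact h (by simpa using h1)
  | 2 =>
    have h1 : x * p * x * x = g := h1
    have h2 : x * q * x * x = g := h2
    rw [← h2] at h1
    exact h (by simpa using h1)
  | 3 =>
    have h1 : p * x * x * x = g := h1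
    have h2 : q * x * x * x = g := h2
    rw [← h2] at h1
    exact h (by simpa using h1)
  | n + 4 => exact h1

/-- Singular case, square roots bounded. -/
theorem caseC {G : Type u} [Group G] (hs : (#G).IsSingular)
    (hc : ∀ x : G, x ≠ 1 → #(cent x) < #G) {l : Cardinal.{u}} (hl : l < #G)
    (hsq : ∀ z : G, #{x : G | x * x = z} ≤ l) :
    ∃ A : Set G, #A = #G ∧ A ^ 4 ≠ Set.univ := by
  classical
  have hinf : ℵ₀ ≤ #G := hs.aleph0_le
  have h0 : ℵ₀ < #G := lt_of_le_of_ne hinf (fun h' => not_isSingular_aleph0 (h' ▸ hs))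
  obtain ⟨g, hg⟩ : ∃ g : G, g ≠ 1 := by
    obtain ⟨x, -, hx⟩ := exists_of_small (R := (Set.univ : Set G)) (θ := #G) (by simp)
      (small_finite hinf (finite_singleton (1 : G)))
    exact ⟨x, hx⟩
  obtain ⟨s, hs1, hs2, hs3⟩ := cof_index #G
  obtain ⟨lv, hlv, -⟩ := level hs1
  let L : s → Cardinal.{u} := fun i => max (max ℵ₀ #(Iio (i : (#G).ord.ToType)))
    (max (#G).ord.cof (max #(cent g) l))
  have hL : ∀ i, L i < #G := fun i => max_lt (max_lt h0 (mk_Iio_toType_lt _ _))
    (max_lt hs.cof_ord_lt (max_lt (hc g hg) hl))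
  let θ : s → Cardinal.{u} := fun i => Order.succ (L i)
  have hθ : ∀ i, (θ i).IsRegular := fun i =>
    isRegular_succ ((le_max_left _ _).trans (le_max_left _ _))
  have hLθ : ∀ i, L i < θ i := fun i => Order.lt_succ _
  have hθκ : ∀ i, θ i < #G := fun i => hs.isSuccLimit.succ_lt (hL i)
  have k2 : ∀ i, ℵ₀ < θ i := fun i =>
    ((le_max_left _ _).trans (le_max_left _ _)).trans_lt (hLθ i)
  have k3 : ∀ i : s, #(Iio (i : (#G).ord.ToType)) < θ i := fun i =>
    ((le_max_right _ _).trans (le_max_left _ _)).trans_lt (hLθ i)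
  have k4 : ∀ i, (#G).ord.cof < θ i := fun i =>
    ((le_max_left _ _).trans (le_max_right _ _)).trans_lt (hLθ i)
  have k5 : ∀ i, #(cent g) < θ i := fun i =>
    (((le_max_left _ _).trans (le_max_right _ _)).trans (le_max_right _ _)).trans_lt (hLθ i)
  have k6 : ∀ i, l < θ i := fun i =>
    (((le_max_right _ _).trans (le_max_right _ _)).trans (le_max_right _ _)).trans_lt (hLθ i)
  have hres : ∀ i : s, ∃ R' : Set G, θ i ≤ #R' ∧ ∃ E : ℕ → Set G, (∀ t, (E t).Subsingleton) ∧
      ∀ t < 4, ∀ p ∉ E t, #(R' ∩ SC g t p : Set G) < θ i := by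
    intro i
    obtain ⟨R', -, h1, E, h2, h3⟩ := restrict_list (R := (Set.univ : Set G)) (θ := θ i)
      (by rw [mk_univ]; exact (hθκ i).le) (SC g)
      (fun t p q hpq => small_subset (SC_disj g t p q hpq) (small_empty' (hθ i).aleph0_le)) 4
    exact ⟨R', h1, E, h2, h3⟩
  choose R' hR' E hE hRE using hres
  let Ex : Set G := {b | ∃ i ∈ (Set.univ : Set s), ∃ t < 4, b ∈ E i t}
  have hEx : ∀ j, #Ex < θ j := by
    intro j
    refine small_ex (hθ j) (s := (Set.univ : Set s)) ?_ (Q := fun i b => ∃ t < 4, b ∈ E i t)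
      (fun i _ => small_nat (hθ j).aleph0_le 4 (fun t b => b ∈ E i t) (fun t _ =>
        small_subsingleton (hθ j).aleph0_le (hE i t)))
    rw [mk_univ, hs2]
    exact k4 j
  let H : Set G → Subgroup G := fun B => Subgroup.closure (insert g B)
  let bad : (#G).ord.ToType → Set G → Set G := fun α B =>
    (H B : Set G) ∪ ({x | ∃ h ∈ (H B : Set G), x * h * (x * h) ∈ (H B : Set G)} ∪
      ({x | x * x * x * x = g} ∪
      {x | ∃ b ∈ B, ∃ t < 4, b ∉ E (lv α) t ∧ x ∈ R' (lv α) ∩ SC g t b}))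
  obtain ⟨a, -, hcard, ha⟩ := build (#G) (fun α => R' (lv α) \ Ex) bad (by
    intro α f hf
    have k0 := (hθ (lv α)).aleph0_le
    have hB : #(f '' Iio α) < θ (lv α) := by
      refine (mk_image_le.trans (mk_le_mk_of_subset ?_)).trans_lt (k3 _)
      exact Iio_subset_Iio (hlv α)
    have hH : #(H (f '' Iio α) : Set G) < θ (lv α) :=
      small_closure (k2 _) (small_insert k0 hB g)
    have hsq2 : #{y : G | y * y ∈ (H (f '' Iio α) : Set G)} < θ (lv α) := by
      have h := small_ex (hθ (lv α)) hH (Q := fun w y => y * y = w)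
        (fun w _ => (hsq w).trans_lt (k6 _))
      refine small_subset ?_ h
      intro y hy
      exact ⟨_, hy, rfl⟩
    have b1 : #{x | ∃ h ∈ (H (f '' Iio α) : Set G), x * h * (x * h) ∈
        (H (f '' Iio α) : Set G)} < θ (lv α) := by
      refine small_ex (hθ (lv α)) hH
        (Q := fun h x => x * h * (x * h) ∈ (H (f '' Iio α) : Set G)) (fun h _ => ?_)
      refine small_inj (fun x => x * h) (T := {y : G | y * y ∈ (H (f '' Iio α) : Set G)})
        ?_ ?_ hsq2
      · intro a _ b _ hab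
        simpa using hab
      · intro x hx
        exact hx
    have b2 : #{x : G | x * x * x * x = g} < θ (lv α) := by
      refine small_subset ?_ (k5 (lv α))
      intro x hx
      have hx : x * x * x * x = g := hx
      show x * g = g * x
      rw [← hx]; group
    have b3 : #{x | ∃ b ∈ f '' Iio α, ∃ t < 4, b ∉ E (lv α) t ∧
        x ∈ R' (lv α) ∩ SC g t b} < θ (lv α) := by
      refine small_ex (hθ (lv α)) hB
        (Q := fun b x => ∃ t < 4, b ∉ E (lv α) t ∧ x ∈ R' (lv α) ∩ SC g t b) (fun b _ => ?_)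
      refine small_nat k0 4 (fun t x => b ∉ E (lv α) t ∧ x ∈ R' (lv α) ∩ SC g t b) ?_
      intro t ht
      by_cases hbt : b ∈ E (lv α) t
      · refine small_subset (T := ∅) ?_ (small_empty' k0)
        intro x hx
        exact hx.1 hbt
      · refine small_subset ?_ (hRE (lv α) t ht b hbt)
        intro x hx
        exact hx.2
    obtain ⟨x, hx, hx2⟩ := exists_of_small (large_diff k0 (hR' (lv α)) (hEx (lv α)))
      (small_union k0 hB (small_union k0 hH (small_union k0 b1 (small_union k0 b2 b3))))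
    exact ⟨x, hx, fun h => hx2 (Or.inl h), fun h => hx2 (Or.inr h)⟩)
  refine ⟨range a, hcard, fun huniv => ?_⟩
  have hH : ∀ α, a α ∉ H (a '' Iio α) := fun α h => (ha α).2 (Or.inl h)
  have hS : ∀ α, ∀ h ∈ H (a '' Iio α), a α * h * (a α * h) ∉ H (a '' Iio α) :=
    fun α h hh hx => (ha α).2 (Or.inr (Or.inl ⟨h, hh, hx⟩))
  have hS1 : ∀ α, a α * a α ∉ H (a '' Iio α) := fun α hx =>
    hS α 1 (one_mem _) (by simpa using hx)
  have hT : ∀ α, ∀ i < α, ∀ t < 4, a α ∉ SC g t (a i) := fun α i hi t ht hx => by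
    refine (ha α).2 (Or.inr (Or.inr (Or.inr ⟨_, ⟨i, hi, rfl⟩, t, ht, ?_, (ha α).1.1, hx⟩)))
    intro hE'
    exact (ha i).1.2 ⟨lv α, Set.mem_univ _, t, ht, hE'⟩
  have hgm : ∀ {α}, g ∈ H (a '' Iio α) := fun {α} => Subgroup.subset_closure (mem_insert _ _)
  have m : ∀ {α i}, i < α → a i ∈ H (a '' Iio α) := fun {α i} hi =>
    Subgroup.subset_closure (mem_insert_of_mem _ ⟨i, hi, rfl⟩)
  refine final4 hH ?_ ?_ ?_ ?_ ?_ ?_ ?_ ?_ ?_ ?_ ?_ (huniv ▸ Set.mem_univ g)
  · intro α h
    exact (ha α).2 (Or.inr (Or.inr (Or.inl h)))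
  · intro α i hi h
    exact hT α i hi 0 (by norm_num) h
  · intro α i hi h
    exact hT α i hi 1 (by norm_num) h
  · intro α i hi j hj h
    apply hS1 α
    have : a α * a α = g * (a j)⁻¹ * (a i)⁻¹ := by rw [← h]; group
    rw [this]
    exact mul_mem (mul_mem hgm (inv_mem (m hj))) (inv_mem (m hi))
  · intro α i hi h
    exact hT α i hi 2 (by norm_num) h
  · intro α i hi j hj h
    apply hS α (a i) (m hi)
    have : a α * a i * (a α * a i) = g * (a j)⁻¹ * a i := by rw [← h]; group
    rw [this]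
    exact mul_mem (mul_mem hgm (inv_mem (m hj))) (m hi)
  · intro α i hi j hj h
    apply hS α (a i * a j) (mul_mem (m hi) (m hj))
    have : a α * (a i * a j) * (a α * (a i * a j)) = g * a i * a j := by rw [← h]; group
    rw [this]
    exact mul_mem (mul_mem hgm (m hi)) (m hj)
  · intro α i hi h
    exact hT α i hi 3 (by norm_num) h
  · intro α i hi j hj h
    apply hS1 α
    have : a α * a α = (a i)⁻¹ * g * (a j)⁻¹ := by rw [← h]; group
    rw [this]
    exact mul_mem (mul_mem (inv_mem (m hi)) hgm) (inv_mem (m hj))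
  · intro α i hi j hj h
    apply hS α (a j) (m hj)
    have : a α * a j * (a α * a j) = (a i)⁻¹ * g * a j := by rw [← h]; group
    rw [this]
    exact mul_mem (mul_mem (inv_mem (m hi)) hgm) (m hj)
  · intro α i hi j hj h
    apply hS1 α
    have : a α * a α = (a j)⁻¹ * (a i)⁻¹ * g := by rw [← h]; group
    rw [this]
    exact mul_mem (mul_mem (inv_mem (m hj)) (inv_mem (m hi))) hgm

/-- Singular cardinals, all cases. -/
theorem partS {G : Type u} [Group G] (hs : (#G).IsSingular)
    (hc : ∀ x : G, x ≠ 1 → #(cent x) < #G) :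
    ∃ A : Set G, #A = #G ∧ A ^ 4 ≠ Set.univ := by
  by_cases hI : ∀ x : G, x * x = 1 → x = 1
  · by_cases hun : ∀ l < #G, ∃ z : G, l < #{x : G | x * x = z}
    · exact caseB hs hc hI hun
    · push Not at hun
      obtain ⟨l, hl, hl2⟩ := hun
      exact caseC hs hc hl hl2
  · push Not at hI
    obtain ⟨t, htt, ht⟩ := hI
    exact caseA hs hc ht htt

theorem pow_univ_mono {G : Type u} [Group G] {A : Set G} (hA : A.Nonempty) {n k : ℕ}
    (h : A ^ n = Set.univ) : A ^ (n + k) = Set.univ := by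
  induction k with
  | zero => exact h
  | succ k ih =>
    rw [← add_assoc, pow_succ, ih]
    ext x
    obtain ⟨a, ha⟩ := hA
    refine ⟨fun _ => trivial, fun _ => ?_⟩
    exact Set.mem_mul.2 ⟨x * a⁻¹, trivial, a, ha, by group⟩

/-- Infinite groups are not `4`-Shelah. -/
theorem all_four {G : Type u} [Group G] (hinf : ℵ₀ ≤ #G) :
    ∃ A : Set G, #A = #G ∧ A ^ 4 ≠ Set.univ := by
  have hne : ∀ A : Set G, #A = #G → A.Nonempty := by
    intro A hA
    rw [Set.nonempty_iff_ne_empty]
    rintro rfl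
    rw [Cardinal.mk_eq_zero] at hA
    exact Cardinal.aleph0_ne_zero (le_antisymm (hA ▸ hinf) zero_le)
  by_contra hcon
  have hn : ∀ A : Set G, #A = #G → A ^ 4 = Set.univ := fun A hA => by
    by_contra h
    exact hcon ⟨A, hA, h⟩
  have h5 : ∀ A : Set G, #A = #G → A ^ 5 = Set.univ := fun A hA =>
    pow_univ_mono (k := 1) (hne A hA) (hn A hA)
  rcases isRegular_or_isSingular hinf with hreg | hs
  · obtain ⟨A, hA, hA5⟩ := regular_five hreg
    exact hA5 (h5 A hA)
  · by_cases hnc : ∃ x y : G, x * y ≠ y * x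
    · obtain ⟨Q, _, hQ, hQn, hQc⟩ := reduction hinf hn hnc
      obtain ⟨A, hA, hA4⟩ := partS (G := Q) (by rw [hQ]; exact hs) hQc
      exact hA4 (hQn A hA)
    · push Not at hnc
      let _ : CommGroup G := { ‹Group G› with mul_comm := hnc }
      obtain ⟨A, hA, hA5⟩ := abelian (G := G) hinf
      exact hA5 (h5 A hA)

end Pool.Agent.Work.MP_b41eab_39
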