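import Pool.Agent.Work.MP_b41eab_39.CaseII

namespace Pool.Agent.Work.MP_b41eab_39

open Cardinal Set
open scoped Pointwise

universe u

/-- A regular cardinal between. -/
theorem exists_regular {κ l : Cardinal.{u}} (hκ : ℵ₀ ≤ κ) (hl : l < κ) :
    ∃ θ : Cardinal.{u}, θ.IsRegular ∧ l < θ ∧ θ ≤ κ := by
  rcases isRegular_or_isSingular hκ with h | h
  · exact ⟨κ, h, hl, le_rfl⟩
  · have h0 : ℵ₀ < κ := lt_of_le_of_ne hκ (fun h' => not_isSingular_aleph0 (h' ▸ h))
    refine ⟨Order.succ (max l ℵ₀), isRegular_succ (le_max_right _ _),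
      lt_of_le_of_lt (le_max_left _ _) (Order.lt_succ _), Order.succ_le_of_lt (max_lt hl h0)⟩

theorem pow_subset_subgroup {G : Type u} [Group G] (H : Subgroup G) (n : ℕ) :
    (H : Set G) ^ n ⊆ H := by
  induction n with
  | zero => simpa using H.one_mem
  | succ n ih =>
    rw [pow_succ]
    rintro _ ⟨x, hx, y, hy, rfl⟩
    exact H.mul_mem (ih hx) hy

/-- Large proper subgroups are excluded. -/
theorem of_subgroup {G : Type u} [Group G] (H : Subgroup G) (hH : H ≠ ⊤) (hc : #G ≤ #H) (n : ℕ) :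
    ∃ A : Set G, #A = #G ∧ A ^ n ≠ Set.univ := by
  refine ⟨H, le_antisymm (mk_set_le _) hc, fun h => hH ?_⟩
  rw [eq_top_iff]
  intro x _
  exact pow_subset_subgroup H n (by rw [h]; exact Set.mem_univ x)

/-- Infinite vector spaces over `ZMod p`. -/
theorem exp_prime_aux {V : Type u} [AddCommGroup V] (p : ℕ) [Fact p.Prime] [Module (ZMod p) V]
    (hinf : ℵ₀ ≤ #V) : ∃ K : AddSubgroup V, K ≠ ⊤ ∧ #V ≤ #K := by
  classical
  obtain ⟨x, -, hx⟩ := exists_of_small (R := (Set.univ : Set V)) (θ := #V) (by simp)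
    (small_finite hinf (finite_singleton (0 : V)))
  have hx : x ≠ 0 := hx
  let W : Submodule (ZMod p) V := Submodule.span (ZMod p) {x}
  obtain ⟨K, hK⟩ := Submodule.exists_isCompl W
  have hW : #W < ℵ₀ := by
    have hfin : Finite W := by
      have : Function.Surjective (fun c : ZMod p => (⟨c • x, Submodule.smul_mem _ _
          (Submodule.mem_span_singleton_self x)⟩ : W)) := by
        rintro ⟨y, hy⟩
        obtain ⟨c, hc⟩ := Submodule.mem_span_singleton.1 hy
        exact ⟨c, Subtype.ext hc⟩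
      exact Finite.of_surjective _ this
    exact mk_lt_aleph0
  have hcard : #V = #W * #K := by
    have e := (Submodule.prodEquivOfIsCompl W K hK).toEquiv
    have : #V = #(W × K) := (mk_congr e).symm
    rw [this, mul_def]
  refine ⟨K.toAddSubgroup, ?_, ?_⟩
  · intro htop
    have h1 : x ∈ K.toAddSubgroup := by rw [htop]; trivial
    have h2 : x ∈ K := h1
    have h3 : x ∈ W ⊓ K := ⟨Submodule.mem_span_singleton_self x, h2⟩
    rw [hK.inf_eq_bot] at h3
    exact hx (by simpa using h3)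
  · by_contra hcon
    rw [not_le] at hcon
    have hK' : #K < #V := hcon
    have := mul_lt_of_lt hinf (hW.trans_le hinf) hK'
    exact this.ne hcard.symm

/-- Infinite abelian groups of prime exponent. -/
theorem exp_prime {G : Type u} [CommGroup G] (hinf : ℵ₀ ≤ #G) (p : ℕ) [Fact p.Prime]
    (h : ∀ x : G, x ^ p = 1) : ∃ H : Subgroup G, H ≠ ⊤ ∧ #G ≤ #H := by
  classical
  have hmod : ∀ x : Additive G, p • x = 0 := fun x => by
    have := h x.toMul
    exact this
  let _ : Module (ZMod p) (Additive G) := AddCommGroup.zmodModule hmod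
  obtain ⟨K, hK, hc⟩ := exp_prime_aux (V := Additive G) p hinf
  refine ⟨AddSubgroup.toSubgroup' K, ?_, hc⟩
  intro htop
  apply hK
  rw [eq_top_iff]
  intro x _
  have h1 : x.toMul ∈ AddSubgroup.toSubgroup' K := by rw [htop]; trivial
  exact h1

/-- Infinite abelian groups are not `5`-Shelah. -/
theorem abelian {G : Type u} [CommGroup G] (hinf : ℵ₀ ≤ #G) :
    ∃ A : Set G, #A = #G ∧ A ^ 5 ≠ Set.univ := by
  classical
  by_cases hT : ∀ d : ℕ, 2 ≤ d → d ≤ 5 → #{x : G | x ^ d = 1} < #G
  · obtain ⟨g, hg⟩ : ∃ g : G, g ≠ 1 := by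
      obtain ⟨x, -, hx⟩ := exists_of_small (R := (Set.univ : Set G)) (θ := #G) (by simp)
        (small_finite hinf (finite_singleton (1 : G)))
      exact ⟨x, hx⟩
    let l : Cardinal.{u} := max (max #{x : G | x ^ 2 = 1} #{x : G | x ^ 3 = 1})
      (max #{x : G | x ^ 4 = 1} #{x : G | x ^ 5 = 1})
    have hl : l < #G := max_lt (max_lt (hT 2 (by norm_num) (by norm_num))
      (hT 3 (by norm_num) (by norm_num))) (max_lt (hT 4 (by norm_num) (by norm_num))
      (hT 5 (by norm_num) (by norm_num)))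
    let bad : Set G → Set G := fun B =>
      {x | ∃ u ∈ PP B, ∃ d ∈ {d : ULift.{u} ℕ | 1 ≤ d.down ∧ d.down ≤ 5}, u * x ^ d.down = g}
    have hbad : ∀ (B : Set G) (θ : Cardinal.{u}), θ.IsRegular → #B < θ → l < θ →
        #(bad B) < θ := by
      intro B θ hθ hB hlθ
      have hinfθ := hθ.aleph0_le
      refine small_ex hθ (small_PP hinfθ hB) fun u _ => small_ex hθ (small_finite hinfθ ?_)
        fun d hd => ?_
      · have : {d : ULift.{u} ℕ | 1 ≤ d.down ∧ d.down ≤ 5} = ULift.down ⁻¹' (Icc 1 5) := rfl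
        rw [this]
        exact (finite_Icc 1 5).preimage (ULift.down_injective.injOn)
      · obtain ⟨d, rfl⟩ := ULift.up_surjective d
        have hd : 1 ≤ d ∧ d ≤ 5 := hd
        show #{x : G | u * x ^ d = g} < θ
        by_cases hne : ∃ x0 : G, u * x0 ^ d = g
        · obtain ⟨x0, hx0⟩ := hne
          refine small_inj (fun x => x0⁻¹ * x) (T := {x : G | x ^ d = 1}) ?_ ?_ ?_
          · intro a _ b _ hab
            simpa using hab
          · intro x hx
            have hx : u * x ^ d = g := hx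
            show (x0⁻¹ * x) ^ d = 1
            rw [mul_pow, inv_pow]
            have : x ^ d = x0 ^ d := by
              have := hx.trans hx0.symm
              simpa using this
            rw [this]; simp
          · rcases hd with ⟨h1, h5⟩
            interval_cases d
            · have h1' : {x : G | x ^ 1 = 1} = {1} := by ext; simp
              rw [h1', mk_singleton]
              exact one_lt_aleph0.trans_le hinfθ
            · exact lt_of_le_of_lt (le_max_of_le_left (le_max_left _ _)) hlθ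
            · exact lt_of_le_of_lt (le_max_of_le_left (le_max_right _ _)) hlθ
            · exact lt_of_le_of_lt (le_max_of_le_right (le_max_left _ _)) hlθ
            · exact lt_of_le_of_lt (le_max_of_le_right (le_max_right _ _)) hlθ
        · refine small_subset (T := ∅) ?_ (small_empty' hinfθ)
          intro x hx
          exact hne ⟨x, hx⟩
    obtain ⟨a, -, hcard, ha⟩ := build (#G) (fun _ => Set.univ) (fun _ B => bad B) (by
      intro α f hf
      have hB : #(f '' Iio α) < #G := small_image f (mk_Iio_toType_lt _ α)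
      obtain ⟨θ, hθ, h1, h2⟩ := exists_regular hinf (max_lt hB hl)
      have h3 := lt_of_le_of_lt (le_max_left _ _) h1
      have h4 := lt_of_le_of_lt (le_max_right _ _) h1
      obtain ⟨x, hx, hx2⟩ := exists_of_small (R := (Set.univ : Set G)) (θ := θ)
        (by simpa using h2) (small_union hθ.aleph0_le h3 (hbad _ θ hθ h3 h4))
      exact ⟨x, hx, fun h => hx2 (Or.inl h), fun h => hx2 (Or.inr h)⟩)
    refine ⟨range a, hcard, fun huniv => ?_⟩
    obtain ⟨i1, i2, i3, i4, i5, H⟩ := mem_pow5 (x := g) (by rw [huniv]; exact Set.mem_univ _)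
    obtain ⟨α, e1, e2, e3, e4, e5, hno⟩ := exists_max5 i1 i2 i3 i4 i5
    have hd : ∀ u ∈ PP (a '' Iio α), ∀ d : ℕ, 1 ≤ d → d ≤ 5 → u * a α ^ d ≠ g :=
      fun u hu d h1 h5 h => (ha α).2 ⟨u, hu, ⟨d⟩, ⟨h1, h5⟩, h⟩
    rcases e1 with h1 | h1
    · rw [h1] at H
      rcases e2 with h2 | h2
      · rw [h2] at H
        rcases e3 with h3 | h3
        · rw [h3] at H
          rcases e4 with h4 | h4
          · rw [h4] at H
            rcases e5 with h5 | h5
            · rw [h5] at H
              exact hd (1 : G) (mem_PP0 _) 5 (by norm_num) (by norm_num) (by rw [← H]; simp only [pow_succ, pow_zero, one_mul]; try ac_rfl)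
            · exact hd (a i5) (mem_PP1 ⟨i5, h5, rfl⟩) 4 (by norm_num) (by norm_num) (by rw [← H]; simp only [pow_succ, pow_zero, one_mul]; try ac_rfl)
          · rcases e5 with h5 | h5
            · rw [h5] at H
              exact hd (a i4) (mem_PP1 ⟨i4, h4, rfl⟩) 4 (by norm_num) (by norm_num) (by rw [← H]; simp only [pow_succ, pow_zero, one_mul]; try ac_rfl)
            · exact hd (a i4 * a i5) (mem_PP2 ⟨i4, h4, rfl⟩ ⟨i5, h5, rfl⟩) 3 (by norm_num) (by norm_num) (by rw [← H]; simp only [pow_succ, pow_zero, one_mul]; try ac_rfl)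
        · rcases e4 with h4 | h4
          · rw [h4] at H
            rcases e5 with h5 | h5
            · rw [h5] at H
              exact hd (a i3) (mem_PP1 ⟨i3, h3, rfl⟩) 4 (by norm_num) (by norm_num) (by rw [← H]; simp only [pow_succ, pow_zero, one_mul]; try ac_rfl)
            · exact hd (a i3 * a i5) (mem_PP2 ⟨i3, h3, rfl⟩ ⟨i5, h5, rfl⟩) 3 (by norm_num) (by norm_num) (by rw [← H]; simp only [pow_succ, pow_zero, one_mul]; try ac_rfl)
          · rcases e5 with h5 | h5
            · rw [h5] at H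
              exact hd (a i3 * a i4) (mem_PP2 ⟨i3, h3, rfl⟩ ⟨i4, h4, rfl⟩) 3 (by norm_num) (by norm_num) (by rw [← H]; simp only [pow_succ, pow_zero, one_mul]; try ac_rfl)
            · exact hd (a i3 * a i4 * a i5) (mem_PP3 ⟨i3, h3, rfl⟩ ⟨i4, h4, rfl⟩ ⟨i5, h5, rfl⟩) 2 (by norm_num) (by norm_num) (by rw [← H]; simp only [pow_succ, pow_zero, one_mul]; try ac_rfl)
      · rcases e3 with h3 | h3
        · rw [h3] at H
          rcases e4 with h4 | h4
          · rw [h4] at H
            rcases e5 with h5 | h5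
            · rw [h5] at H
              exact hd (a i2) (mem_PP1 ⟨i2, h2, rfl⟩) 4 (by norm_num) (by norm_num) (by rw [← H]; simp only [pow_succ, pow_zero, one_mul]; try ac_rfl)
            · exact hd (a i2 * a i5) (mem_PP2 ⟨i2, h2, rfl⟩ ⟨i5, h5, rfl⟩) 3 (by norm_num) (by norm_num) (by rw [← H]; simp only [pow_succ, pow_zero, one_mul]; try ac_rfl)
          · rcases e5 with h5 | h5
            · rw [h5] at H
              exact hd (a i2 * a i4) (mem_PP2 ⟨i2, h2, rfl⟩ ⟨i4, h4, rfl⟩) 3 (by norm_num) (by norm_num) (by rw [← H]; simp only [pow_succ, pow_zero, one_mul]; try ac_rfl)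
            · exact hd (a i2 * a i4 * a i5) (mem_PP3 ⟨i2, h2, rfl⟩ ⟨i4, h4, rfl⟩ ⟨i5, h5, rfl⟩) 2 (by norm_num) (by norm_num) (by rw [← H]; simp only [pow_succ, pow_zero, one_mul]; try ac_rfl)
        · rcases e4 with h4 | h4
          · rw [h4] at H
            rcases e5 with h5 | h5
            · rw [h5] at H
              exact hd (a i2 * a i3) (mem_PP2 ⟨i2, h2, rfl⟩ ⟨i3, h3, rfl⟩) 3 (by norm_num) (by norm_num) (by rw [← H]; simp only [pow_succ, pow_zero, one_mul]; try ac_rfl)
            · exact hd (a i2 * a i3 * a i5) (mem_PP3 ⟨i2, h2, rfl⟩ ⟨i3, h3, rfl⟩ ⟨i5, h5, rfl⟩) 2 (by norm_num) (by norm_num) (by rw [← H]; simp only [pow_succ, pow_zero, one_mul]; try ac_rfl)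
          · rcases e5 with h5 | h5
            · rw [h5] at H
              exact hd (a i2 * a i3 * a i4) (mem_PP3 ⟨i2, h2, rfl⟩ ⟨i3, h3, rfl⟩ ⟨i4, h4, rfl⟩) 2 (by norm_num) (by norm_num) (by rw [← H]; simp only [pow_succ, pow_zero, one_mul]; try ac_rfl)
            · exact hd (a i2 * a i3 * a i4 * a i5) (mem_PP4 ⟨i2, h2, rfl⟩ ⟨i3, h3, rfl⟩ ⟨i4, h4, rfl⟩ ⟨i5, h5, rfl⟩) 1 (by norm_num) (by norm_num) (by rw [← H]; simp only [pow_succ, pow_zero, one_mul]; try ac_rfl)
    · rcases e2 with h2 | h2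
      · rw [h2] at H
        rcases e3 with h3 | h3
        · rw [h3] at H
          rcases e4 with h4 | h4
          · rw [h4] at H
            rcases e5 with h5 | h5
            · rw [h5] at H
              exact hd (a i1) (mem_PP1 ⟨i1, h1, rfl⟩) 4 (by norm_num) (by norm_num) (by rw [← H]; simp only [pow_succ, pow_zero, one_mul]; try ac_rfl)
            · exact hd (a i1 * a i5) (mem_PP2 ⟨i1, h1, rfl⟩ ⟨i5, h5, rfl⟩) 3 (by norm_num) (by norm_num) (by rw [← H]; simp only [pow_succ, pow_zero, one_mul]; try ac_rfl)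
          · rcases e5 with h5 | h5
            · rw [h5] at H
              exact hd (a i1 * a i4) (mem_PP2 ⟨i1, h1, rfl⟩ ⟨i4, h4, rfl⟩) 3 (by norm_num) (by norm_num) (by rw [← H]; simp only [pow_succ, pow_zero, one_mul]; try ac_rfl)
            · exact hd (a i1 * a i4 * a i5) (mem_PP3 ⟨i1, h1, rfl⟩ ⟨i4, h4, rfl⟩ ⟨i5, h5, rfl⟩) 2 (by norm_num) (by norm_num) (by rw [← H]; simp only [pow_succ, pow_zero, one_mul]; try ac_rfl)
        · rcases e4 with h4 | h4
          · rw [h4] at H
            rcases e5 with h5 | h5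
            · rw [h5] at H
              exact hd (a i1 * a i3) (mem_PP2 ⟨i1, h1, rfl⟩ ⟨i3, h3, rfl⟩) 3 (by norm_num) (by norm_num) (by rw [← H]; simp only [pow_succ, pow_zero, one_mul]; try ac_rfl)
            · exact hd (a i1 * a i3 * a i5) (mem_PP3 ⟨i1, h1, rfl⟩ ⟨i3, h3, rfl⟩ ⟨i5, h5, rfl⟩) 2 (by norm_num) (by norm_num) (by rw [← H]; simp only [pow_succ, pow_zero, one_mul]; try ac_rfl)
          · rcases e5 with h5 | h5
            · rw [h5] at H
              exact hd (a i1 * a i3 * a i4) (mem_PP3 ⟨i1, h1, rfl⟩ ⟨i3, h3, rfl⟩ ⟨i4, h4, rfl⟩) 2 (by norm_num) (by norm_num) (by rw [← H]; simp only [pow_succ, pow_zero, one_mul]; try ac_rfl)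
            · exact hd (a i1 * a i3 * a i4 * a i5) (mem_PP4 ⟨i1, h1, rfl⟩ ⟨i3, h3, rfl⟩ ⟨i4, h4, rfl⟩ ⟨i5, h5, rfl⟩) 1 (by norm_num) (by norm_num) (by rw [← H]; simp only [pow_succ, pow_zero, one_mul]; try ac_rfl)
      · rcases e3 with h3 | h3
        · rw [h3] at H
          rcases e4 with h4 | h4
          · rw [h4] at H
            rcases e5 with h5 | h5
            · rw [h5] at H
              exact hd (a i1 * a i2) (mem_PP2 ⟨i1, h1, rfl⟩ ⟨i2, h2, rfl⟩) 3 (by norm_num) (by norm_num) (by rw [← H]; simp only [pow_succ, pow_zero, one_mul]; try ac_rfl)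
            · exact hd (a i1 * a i2 * a i5) (mem_PP3 ⟨i1, h1, rfl⟩ ⟨i2, h2, rfl⟩ ⟨i5, h5, rfl⟩) 2 (by norm_num) (by norm_num) (by rw [← H]; simp only [pow_succ, pow_zero, one_mul]; try ac_rfl)
          · rcases e5 with h5 | h5
            · rw [h5] at H
              exact hd (a i1 * a i2 * a i4) (mem_PP3 ⟨i1, h1, rfl⟩ ⟨i2, h2, rfl⟩ ⟨i4, h4, rfl⟩) 2 (by norm_num) (by norm_num) (by rw [← H]; simp only [pow_succ, pow_zero, one_mul]; try ac_rfl)
            · exact hd (a i1 * a i2 * a i4 * a i5) (mem_PP4 ⟨i1, h1, rfl⟩ ⟨i2, h2, rfl⟩ ⟨i4, h4, rfl⟩ ⟨i5, h5, rfl⟩) 1 (by norm_num) (by norm_num) (by rw [← H]; simp only [pow_succ, pow_zero, one_mul]; try ac_rfl)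
        · rcases e4 with h4 | h4
          · rw [h4] at H
            rcases e5 with h5 | h5
            · rw [h5] at H
              exact hd (a i1 * a i2 * a i3) (mem_PP3 ⟨i1, h1, rfl⟩ ⟨i2, h2, rfl⟩ ⟨i3, h3, rfl⟩) 2 (by norm_num) (by norm_num) (by rw [← H]; simp only [pow_succ, pow_zero, one_mul]; try ac_rfl)
            · exact hd (a i1 * a i2 * a i3 * a i5) (mem_PP4 ⟨i1, h1, rfl⟩ ⟨i2, h2, rfl⟩ ⟨i3, h3, rfl⟩ ⟨i5, h5, rfl⟩) 1 (by norm_num) (by norm_num) (by rw [← H]; simp only [pow_succ, pow_zero, one_mul]; try ac_rfl)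
          · rcases e5 with h5 | h5
            · rw [h5] at H
              exact hd (a i1 * a i2 * a i3 * a i4) (mem_PP4 ⟨i1, h1, rfl⟩ ⟨i2, h2, rfl⟩ ⟨i3, h3, rfl⟩ ⟨i4, h4, rfl⟩) 1 (by norm_num) (by norm_num) (by rw [← H]; simp only [pow_succ, pow_zero, one_mul]; try ac_rfl)
            · exact absurd ⟨h1, h2, h3, h4, h5⟩ hno
  · push Not at hT
    obtain ⟨d, h2, h5, hd⟩ := hT
    let T : ℕ → Subgroup G := fun d => (powMonoidHom d).ker
    have hTd : ∀ d, ((T d : Set G)) = {x : G | x ^ d = 1} := fun d => rfl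
    have key : ∀ p : ℕ, p.Prime → #G ≤ #{x : G | x ^ p = 1} →
        ∃ A : Set G, #A = #G ∧ A ^ 5 ≠ Set.univ := by
      intro p hp hcp
      by_cases htop : T p = ⊤
      · have : Fact p.Prime := ⟨hp⟩
        obtain ⟨H, hH, hcH⟩ := exp_prime hinf p (fun x => by
          have : x ∈ T p := by rw [htop]; trivial
          exact this)
        exact of_subgroup H hH hcH 5
      · exact of_subgroup (T p) htop hcp 5
    interval_cases d
    · exact key 2 Nat.prime_two hd
    · exact key 3 Nat.prime_three hd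
    · refine key 2 Nat.prime_two ?_
      by_contra hcon
      rw [not_le] at hcon
      have hinfs := hcon
      -- squares of fourth roots of unity
      have hle : #{x : G | x ^ 4 = 1} ≤ #({x : G | x ^ 2 = 1} × {x : G | x ^ 2 = 1}) := by
        -- choose square roots
        choose r hr using fun y : {y : G // ∃ x : G, x ^ 2 = y} => y.2
        refine mk_le_of_injective (f := fun x : {x : G | x ^ 4 = 1} =>
          ((⟨x.1 ^ 2, by
              have := x.2
              have h4 : x.1 ^ 4 = 1 := this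
              show (x.1 ^ 2) ^ 2 = 1
              rw [← pow_mul]; exact h4⟩ : {x : G | x ^ 2 = 1}),
            (⟨x.1 * (r ⟨x.1 ^ 2, x.1, rfl⟩)⁻¹, by
              show (x.1 * (r ⟨x.1 ^ 2, x.1, rfl⟩)⁻¹) ^ 2 = 1
              rw [mul_pow, inv_pow, hr]; simp⟩ : {x : G | x ^ 2 = 1}))) ?_
        intro x y hxy
        have h1 : x.1 ^ 2 = y.1 ^ 2 := congrArg (fun z => (z.1 : G)) hxy
        have h2 : x.1 * (r ⟨x.1 ^ 2, x.1, rfl⟩)⁻¹ = y.1 * (r ⟨y.1 ^ 2, y.1, rfl⟩)⁻¹ :=
          congrArg (fun z => (z.2 : G)) hxy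
        have h3 : r ⟨x.1 ^ 2, x.1, rfl⟩ = r ⟨y.1 ^ 2, y.1, rfl⟩ := by
          congr 1
          exact Subtype.ext h1
        rw [h3] at h2
        exact Subtype.ext (by simpa using h2)
      rw [← mul_def] at hle
      exact absurd (hd.trans hle) (not_le.2 (mul_lt_of_lt hinf hcon hcon))
    · exact key 5 Nat.prime_five hd

end Pool.Agent.Work.MP_b41eab_39
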