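import Pool.Agent.Work.MP_b41eab_39.Rec

namespace Pool.Agent.Work.MP_b41eab_39

open Cardinal Set
open scoped Pointwise

universe u

theorem exists_max5 {ι : Type u} [LinearOrder ι] (i1 i2 i3 i4 i5 : ι) :
    ∃ α, (i1 = α ∨ i1 < α) ∧ (i2 = α ∨ i2 < α) ∧ (i3 = α ∨ i3 < α) ∧ (i4 = α ∨ i4 < α) ∧
      (i5 = α ∨ i5 < α) ∧ ¬ (i1 < α ∧ i2 < α ∧ i3 < α ∧ i4 < α ∧ i5 < α) := by
  refine ⟨max i1 (max i2 (max i3 (max i4 i5))), ?_, ?_, ?_, ?_, ?_, ?_⟩
  · exact eq_or_lt_of_le (by simp)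
  · exact eq_or_lt_of_le (by simp)
  · exact eq_or_lt_of_le (by simp)
  · exact eq_or_lt_of_le (by simp)
  · exact eq_or_lt_of_le (by simp)
  · rintro ⟨h1, h2, h3, h4, h5⟩
    exact lt_irrefl _ (max_lt h1 (max_lt h2 (max_lt h3 (max_lt h4 h5))))

theorem exists_max3 {ι : Type u} [LinearOrder ι] (i1 i2 i3 : ι) :
    ∃ α, (i1 = α ∨ i1 < α) ∧ (i2 = α ∨ i2 < α) ∧ (i3 = α ∨ i3 < α) ∧
      ¬ (i1 < α ∧ i2 < α ∧ i3 < α) := by
  refine ⟨max i1 (max i2 i3), ?_, ?_, ?_, ?_⟩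
  · exact eq_or_lt_of_le (by simp)
  · exact eq_or_lt_of_le (by simp)
  · exact eq_or_lt_of_le (by simp)
  · rintro ⟨h1, h2, h3⟩
    exact lt_irrefl _ (max_lt h1 (max_lt h2 h3))

theorem exists_max2 {ι : Type u} [LinearOrder ι] (i1 i2 : ι) :
    ∃ α, (i1 = α ∨ i1 < α) ∧ (i2 = α ∨ i2 < α) ∧ ¬ (i1 < α ∧ i2 < α) := by
  refine ⟨max i1 i2, ?_, ?_, ?_⟩
  · exact eq_or_lt_of_le (by simp)
  · exact eq_or_lt_of_le (by simp)
  · rintro ⟨h1, h2⟩
    exact lt_irrefl _ (max_lt h1 h2)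

theorem mem_pow5 {G : Type u} [Group G] {ι : Type u} {a : ι → G} {x : G}
    (hx : x ∈ (range a) ^ 5) :
    ∃ i1 i2 i3 i4 i5, a i1 * a i2 * a i3 * a i4 * a i5 = x := by
  rw [show (5 : ℕ) = 4 + 1 from rfl, pow_succ, show (4 : ℕ) = 3 + 1 from rfl, pow_succ,
    show (3 : ℕ) = 2 + 1 from rfl, pow_succ, show (2 : ℕ) = 1 + 1 from rfl, pow_succ,
    pow_one] at hx
  obtain ⟨_, ⟨_, ⟨_, ⟨_, ⟨i1, rfl⟩, _, ⟨i2, rfl⟩, rfl⟩, _, ⟨i3, rfl⟩, rfl⟩, _, ⟨i4, rfl⟩, rfl⟩,
    _, ⟨i5, rfl⟩, rfl⟩ := hx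
  exact ⟨i1, i2, i3, i4, i5, rfl⟩

/-- Regular case with many involutions. -/
theorem caseI {G : Type u} [Group G] (hreg : (#G).IsRegular)
    (hc : ∀ x : G, x ≠ 1 → #(cent x) < #G) (hI : #G ≤ #{x : G | x * x = 1}) :
    ∃ A : Set G, #A = #G ∧ A ^ 5 ≠ Set.univ := by
  classical
  have hinf := hreg.aleph0_le
  obtain ⟨g, hg⟩ : ∃ g : G, g ≠ 1 := by
    obtain ⟨x, -, hx⟩ := exists_of_small (R := (Set.univ : Set G)) (θ := #G) (by simp)
      (small_finite hinf (finite_singleton (1 : G)))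
    exact ⟨x, hx⟩
  -- almost disjointness
  let S : G × G → Set G := fun p => {x | x * p.1 * x * p.2 * x = g}
  have hS : ∀ p q : G × G, p ≠ q → #(S p ∩ S q : Set G) < #G := by
    intro p q hpq
    by_cases h2 : p.2 = q.2
    · have : S p ∩ S q ⊆ ∅ := by
        intro x hx
        obtain ⟨h3, h4⟩ := hx
        have h3 : x * p.1 * x * p.2 * x = g := h3
        have h4 : x * q.1 * x * q.2 * x = g := h4
        rw [← h4, h2] at h3
        have h5 : p.1 = q.1 := by simpa using h3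
        exact (hpq (Prod.ext h5 h2)).elim
      exact small_subset this (by simp [(aleph0_pos.trans_le hinf)])
    · refine small_subset ?_ (small_conj hinf (hc (p.2 * q.2⁻¹) ?_) (p.1⁻¹ * q.1))
      · intro x hx
        obtain ⟨h3, h4⟩ := hx
        have h3 : x * p.1 * x * p.2 * x = g := h3
        have h4 : x * q.1 * x * q.2 * x = g := h4
        rw [← h4] at h3
        have h5 : p.1 * x * p.2 = q.1 * x * q.2 := by
          have := congrArg (fun z => x⁻¹ * z * x⁻¹) h3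
          simpa [mul_assoc] using this
        show x * (p.2 * q.2⁻¹) * x⁻¹ = p.1⁻¹ * q.1
        have h6 : x * p.2 = p.1⁻¹ * q.1 * x * q.2 := by
          have := congrArg (fun z => p.1⁻¹ * z) h5
          simpa [mul_assoc] using this
        rw [← mul_assoc, h6]; group
      · intro h
        exact h2 (mul_inv_eq_one.1 h)
  obtain ⟨R1, hR1, hR1c, E, hE, hR1E⟩ := restrict hI S hS
  let F : Set G := {1, g} ∪ {b | ∃ c, (b, c) ∈ E}
  have hF : #F < #G := by
    refine small_union hinf (small_finite hinf (by simp)) (small_finite hinf ?_)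
    have : {b | ∃ c, (b, c) ∈ E} = Prod.fst '' E := by
      ext b; simp
    rw [this]
    exact hE.finite.image _
  let R : Set G := R1 \ F
  have hR : #G ≤ #R := large_diff hinf hR1c hF
  let bad : Set G → Set G := fun B =>
    {x | ∃ u ∈ PP B, ∃ v ∈ PP B, u * x * v = g} ∪
    ({x | ∃ u ∈ PP B, ∃ v ∈ PP B, ∃ w ∈ PP B, v ≠ 1 ∧ x * x = 1 ∧ u * x * v * x * w = g} ∪
    {x | ∃ b ∈ B, ∃ c ∈ B, (b, c) ∉ E ∧ x ∈ R1 ∩ S (b, c)})
  have hbad : ∀ B : Set G, #B < #G → #(bad B) < #G := by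
    intro B hB
    have hP := small_PP hinf hB
    refine small_union hinf ?_ (small_union hinf ?_ ?_)
    · refine small_ex hreg hP fun u _ => small_ex hreg hP fun v _ => ?_
      refine small_subsingleton hinf ?_
      intro x hx y hy
      have hx : u * x * v = g := hx
      have hy : u * y * v = g := hy
      rw [← hy] at hx
      simpa using hx
    · refine small_ex hreg hP fun u _ => small_ex hreg hP fun v _ => small_ex hreg hP fun w _ => ?_
      by_cases hv : v = 1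
      · refine small_subset (T := ∅) ?_ (by simp [(aleph0_pos.trans_le hinf)])
        intro x hx
        exact (hx.1 hv).elim
      · refine small_subset ?_ (small_conj hinf (hc v hv) (u⁻¹ * g * w⁻¹))
        rintro x ⟨-, hx1, hx2⟩
        show x * v * x⁻¹ = u⁻¹ * g * w⁻¹
        rw [← hx2, eq_comm, inv_eq_of_mul_eq_one_left hx1]
        group
    · refine small_ex hreg hB fun b _ => small_ex hreg hB fun c _ => ?_
      by_cases hbc : (b, c) ∈ E
      · refine small_subset (T := ∅) ?_ (by simp [(aleph0_pos.trans_le hinf)])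
        intro x hx
        exact (hx.1 hbc).elim
      · exact small_subset (fun x hx => hx.2) (hR1E (b, c) hbc)
  obtain ⟨a, -, hcard, ha⟩ := build (#G) (fun _ => R) (fun _ B => bad B) (by
    intro α f hf
    have hB : #(f '' Iio α) < #G := small_image f (mk_Iio_toType_lt _ α)
    obtain ⟨x, hx, hx2⟩ := exists_of_small hR (small_union hinf hB (hbad _ hB))
    exact ⟨x, hx, fun h => hx2 (Or.inl h), fun h => hx2 (Or.inr h)⟩)
  refine ⟨range a, hcard, fun huniv => ?_⟩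
  have hL : ∀ i, a i * a i = 1 ∧ a i ≠ 1 ∧ a i ≠ g ∧ ∀ c, (a i, c) ∉ E := by
    intro i
    have h1 : a i ∈ R1 \ F := (ha i).1
    refine ⟨hR1 h1.1, fun h => h1.2 (Or.inl (by simp [h])), fun h => h1.2 (Or.inl (by simp [h])),
      fun c hcE => h1.2 (Or.inr ⟨c, hcE⟩)⟩
  have hD1 : ∀ α, ∀ u ∈ PP (a '' Iio α), ∀ v ∈ PP (a '' Iio α), u * a α * v ≠ g :=
    fun α u hu v hv h => (ha α).2 (Or.inl ⟨u, hu, v, hv, h⟩)
  have hD2 : ∀ α, ∀ u ∈ PP (a '' Iio α), ∀ v ∈ PP (a '' Iio α), ∀ w ∈ PP (a '' Iio α),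
      v ≠ 1 → u * a α * v * a α * w ≠ g :=
    fun α u hu v hv w hw hv1 h =>
      (ha α).2 (Or.inr (Or.inl ⟨u, hu, v, hv, w, hw, hv1, (hL α).1, h⟩))
  have hD3 : ∀ α, ∀ b ∈ a '' Iio α, ∀ c ∈ a '' Iio α, (b, c) ∉ E → a α * b * a α * c * a α ≠ g :=
    fun α b hb c hc' hbc h =>
      (ha α).2 (Or.inr (Or.inr ⟨b, hb, c, hc', hbc, (ha α).1.1, h⟩))
  have inv3 : ∀ i1 i2 i3, a i1 * a i2 * a i3 ≠ g := by
    intro i1 i2 i3 H
    obtain ⟨α, e1, e2, e3, hno⟩ := exists_max3 i1 i2 i3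
    have hx := (hL α).1
    have hxx : ∀ z, a α * (a α * z) = z := fun z => by rw [← mul_assoc, hx, one_mul]
    have hd1 := hD1 α
    have hd2 := hD2 α
    rcases e1 with h1 | h1
    · rw [h1] at H
      rcases e2 with h2 | h2
      · rw [h2] at H
        rcases e3 with h3 | h3
        · rw [h3] at H
          exact hd1 (1 : G) (mem_PP0 _) (1 : G) (mem_PP0 _) (by simpa [mul_assoc, hxx, hx] using H)
        · exact (hL i3).2.2.1 (by simpa [mul_assoc, hxx, hx] using H)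
      · rcases e3 with h3 | h3
        · rw [h3] at H
          exact hd2 (1 : G) (mem_PP0 _) (a i2) (mem_PP1 ⟨i2, h2, rfl⟩) (1 : G) (mem_PP0 _) (hL i2).2.1 (by simpa [mul_assoc, hxx, hx] using H)
        · exact hd1 (1 : G) (mem_PP0 _) (a i2 * a i3) (mem_PP2 ⟨i2, h2, rfl⟩ ⟨i3, h3, rfl⟩) (by simpa [mul_assoc, hxx, hx] using H)
    · rcases e2 with h2 | h2
      · rw [h2] at H
        rcases e3 with h3 | h3
        · rw [h3] at H
          exact (hL i1).2.2.1 (by simpa [mul_assoc, hxx, hx] using H)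
        · exact hd1 (a i1) (mem_PP1 ⟨i1, h1, rfl⟩) (a i3) (mem_PP1 ⟨i3, h3, rfl⟩) (by simpa [mul_assoc, hxx, hx] using H)
      · rcases e3 with h3 | h3
        · rw [h3] at H
          exact hd1 (a i1 * a i2) (mem_PP2 ⟨i1, h1, rfl⟩ ⟨i2, h2, rfl⟩) (1 : G) (mem_PP0 _) (by simpa [mul_assoc, hxx, hx] using H)
        · exact absurd ⟨h1, h2, h3⟩ hno
  obtain ⟨i1, i2, i3, i4, i5, H⟩ := mem_pow5 (x := g) (by rw [huniv]; exact Set.mem_univ _)
  obtain ⟨α, e1, e2, e3, e4, e5, hno⟩ := exists_max5 i1 i2 i3 i4 i5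
  have hx := (hL α).1
  have hxx : ∀ z, a α * (a α * z) = z := fun z => by rw [← mul_assoc, hx, one_mul]
  have hd1 := hD1 α
  have hd2 := hD2 α
  have hd3 := hD3 α
  rcases e1 with h1 | h1
  · rw [h1] at H
    rcases e2 with h2 | h2
    · rw [h2] at H
      rcases e3 with h3 | h3
      · rw [h3] at H
        rcases e4 with h4 | h4
        · rw [h4] at H
          rcases e5 with h5 | h5
          · rw [h5] at H
            exact hd1 (1 : G) (mem_PP0 _) (1 : G) (mem_PP0 _) (by simpa [mul_assoc, hxx, hx] using H)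
          · exact (hL i5).2.2.1 (by simpa [mul_assoc, hxx, hx] using H)
        · rcases e5 with h5 | h5
          · rw [h5] at H
            exact hd2 (1 : G) (mem_PP0 _) (a i4) (mem_PP1 ⟨i4, h4, rfl⟩) (1 : G) (mem_PP0 _) (hL i4).2.1 (by simpa [mul_assoc, hxx, hx] using H)
          · exact hd1 (1 : G) (mem_PP0 _) (a i4 * a i5) (mem_PP2 ⟨i4, h4, rfl⟩ ⟨i5, h5, rfl⟩) (by simpa [mul_assoc, hxx, hx] using H)
      · rcases e4 with h4 | h4
        · rw [h4] at H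
          rcases e5 with h5 | h5
          · rw [h5] at H
            exact (hL i3).2.2.1 (by simpa [mul_assoc, hxx, hx] using H)
          · exact hd1 (a i3) (mem_PP1 ⟨i3, h3, rfl⟩) (a i5) (mem_PP1 ⟨i5, h5, rfl⟩) (by simpa [mul_assoc, hxx, hx] using H)
        · rcases e5 with h5 | h5
          · rw [h5] at H
            exact hd1 (a i3 * a i4) (mem_PP2 ⟨i3, h3, rfl⟩ ⟨i4, h4, rfl⟩) (1 : G) (mem_PP0 _) (by simpa [mul_assoc, hxx, hx] using H)
          · exact inv3 i3 i4 i5 (by simpa [mul_assoc, hxx, hx] using H)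
    · rcases e3 with h3 | h3
      · rw [h3] at H
        rcases e4 with h4 | h4
        · rw [h4] at H
          rcases e5 with h5 | h5
          · rw [h5] at H
            exact hd2 (1 : G) (mem_PP0 _) (a i2) (mem_PP1 ⟨i2, h2, rfl⟩) (1 : G) (mem_PP0 _) (hL i2).2.1 (by simpa [mul_assoc, hxx, hx] using H)
          · exact hd1 (1 : G) (mem_PP0 _) (a i2 * a i5) (mem_PP2 ⟨i2, h2, rfl⟩ ⟨i5, h5, rfl⟩) (by simpa [mul_assoc, hxx, hx] using H)
        · rcases e5 with h5 | h5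
          · rw [h5] at H
            exact hd3 _ ⟨i2, h2, rfl⟩ _ ⟨i4, h4, rfl⟩ ((hL i2).2.2.2 _) (by simpa [mul_assoc, hxx, hx] using H)
          · exact hd2 (1 : G) (mem_PP0 _) (a i2) (mem_PP1 ⟨i2, h2, rfl⟩) (a i4 * a i5) (mem_PP2 ⟨i4, h4, rfl⟩ ⟨i5, h5, rfl⟩) (hL i2).2.1 (by simpa [mul_assoc, hxx, hx] using H)
      · rcases e4 with h4 | h4
        · rw [h4] at H
          rcases e5 with h5 | h5
          · rw [h5] at H
            exact hd1 (1 : G) (mem_PP0 _) (a i2 * a i3) (mem_PP2 ⟨i2, h2, rfl⟩ ⟨i3, h3, rfl⟩) (by simpa [mul_assoc, hxx, hx] using H)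
          · by_cases hv : (a i2 * a i3) = 1
            · have H2 : (1 : G) * a α * (a i2 * a i3) * a α * (a i5) = g := by simpa [mul_assoc, hxx, hx] using H
              rw [hv] at H2
              exact (hL i5).2.2.1 (by simpa [mul_assoc, hxx, hx] using H2)
            · exact hd2 (1 : G) (mem_PP0 _) (a i2 * a i3) (mem_PP2 ⟨i2, h2, rfl⟩ ⟨i3, h3, rfl⟩) (a i5) (mem_PP1 ⟨i5, h5, rfl⟩) hv (by simpa [mul_assoc, hxx, hx] using H)
        · rcases e5 with h5 | h5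
          · rw [h5] at H
            by_cases hv : (a i2 * a i3 * a i4) = 1
            · have H2 : (1 : G) * a α * (a i2 * a i3 * a i4) * a α * (1 : G) = g := by simpa [mul_assoc, hxx, hx] using H
              rw [hv] at H2
              exact hg (by simpa [mul_assoc, hxx, hx] using H2.symm)
            · exact hd2 (1 : G) (mem_PP0 _) (a i2 * a i3 * a i4) (mem_PP3 ⟨i2, h2, rfl⟩ ⟨i3, h3, rfl⟩ ⟨i4, h4, rfl⟩) (1 : G) (mem_PP0 _) hv (by simpa [mul_assoc, hxx, hx] using H)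
          · exact hd1 (1 : G) (mem_PP0 _) (a i2 * a i3 * a i4 * a i5) (mem_PP4 ⟨i2, h2, rfl⟩ ⟨i3, h3, rfl⟩ ⟨i4, h4, rfl⟩ ⟨i5, h5, rfl⟩) (by simpa [mul_assoc, hxx, hx] using H)
  · rcases e2 with h2 | h2
    · rw [h2] at H
      rcases e3 with h3 | h3
      · rw [h3] at H
        rcases e4 with h4 | h4
        · rw [h4] at H
          rcases e5 with h5 | h5
          · rw [h5] at H
            exact (hL i1).2.2.1 (by simpa [mul_assoc, hxx, hx] using H)
          · exact hd1 (a i1) (mem_PP1 ⟨i1, h1, rfl⟩) (a i5) (mem_PP1 ⟨i5, h5, rfl⟩) (by simpa [mul_assoc, hxx, hx] using H)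
        · rcases e5 with h5 | h5
          · rw [h5] at H
            exact hd1 (a i1 * a i4) (mem_PP2 ⟨i1, h1, rfl⟩ ⟨i4, h4, rfl⟩) (1 : G) (mem_PP0 _) (by simpa [mul_assoc, hxx, hx] using H)
          · exact inv3 i1 i4 i5 (by simpa [mul_assoc, hxx, hx] using H)
      · rcases e4 with h4 | h4
        · rw [h4] at H
          rcases e5 with h5 | h5
          · rw [h5] at H
            exact hd1 (a i1) (mem_PP1 ⟨i1, h1, rfl⟩) (a i3) (mem_PP1 ⟨i3, h3, rfl⟩) (by simpa [mul_assoc, hxx, hx] using H)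
          · exact hd2 (a i1) (mem_PP1 ⟨i1, h1, rfl⟩) (a i3) (mem_PP1 ⟨i3, h3, rfl⟩) (a i5) (mem_PP1 ⟨i5, h5, rfl⟩) (hL i3).2.1 (by simpa [mul_assoc, hxx, hx] using H)
        · rcases e5 with h5 | h5
          · rw [h5] at H
            by_cases hv : (a i3 * a i4) = 1
            · have H2 : (a i1) * a α * (a i3 * a i4) * a α * (1 : G) = g := by simpa [mul_assoc, hxx, hx] using H
              rw [hv] at H2
              exact (hL i1).2.2.1 (by simpa [mul_assoc, hxx, hx] using H2)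
            · exact hd2 (a i1) (mem_PP1 ⟨i1, h1, rfl⟩) (a i3 * a i4) (mem_PP2 ⟨i3, h3, rfl⟩ ⟨i4, h4, rfl⟩) (1 : G) (mem_PP0 _) hv (by simpa [mul_assoc, hxx, hx] using H)
          · exact hd1 (a i1) (mem_PP1 ⟨i1, h1, rfl⟩) (a i3 * a i4 * a i5) (mem_PP3 ⟨i3, h3, rfl⟩ ⟨i4, h4, rfl⟩ ⟨i5, h5, rfl⟩) (by simpa [mul_assoc, hxx, hx] using H)
    · rcases e3 with h3 | h3
      · rw [h3] at H
        rcases e4 with h4 | h4
        · rw [h4] at H
          rcases e5 with h5 | h5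
          · rw [h5] at H
            exact hd1 (a i1 * a i2) (mem_PP2 ⟨i1, h1, rfl⟩ ⟨i2, h2, rfl⟩) (1 : G) (mem_PP0 _) (by simpa [mul_assoc, hxx, hx] using H)
          · exact inv3 i1 i2 i5 (by simpa [mul_assoc, hxx, hx] using H)
        · rcases e5 with h5 | h5
          · rw [h5] at H
            exact hd2 (a i1 * a i2) (mem_PP2 ⟨i1, h1, rfl⟩ ⟨i2, h2, rfl⟩) (a i4) (mem_PP1 ⟨i4, h4, rfl⟩) (1 : G) (mem_PP0 _) (hL i4).2.1 (by simpa [mul_assoc, hxx, hx] using H)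
          · exact hd1 (a i1 * a i2) (mem_PP2 ⟨i1, h1, rfl⟩ ⟨i2, h2, rfl⟩) (a i4 * a i5) (mem_PP2 ⟨i4, h4, rfl⟩ ⟨i5, h5, rfl⟩) (by simpa [mul_assoc, hxx, hx] using H)
      · rcases e4 with h4 | h4
        · rw [h4] at H
          rcases e5 with h5 | h5
          · rw [h5] at H
            exact inv3 i1 i2 i3 (by simpa [mul_assoc, hxx, hx] using H)
          · exact hd1 (a i1 * a i2 * a i3) (mem_PP3 ⟨i1, h1, rfl⟩ ⟨i2, h2, rfl⟩ ⟨i3, h3, rfl⟩) (a i5) (mem_PP1 ⟨i5, h5, rfl⟩) (by simpa [mul_assoc, hxx, hx] using H)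
        · rcases e5 with h5 | h5
          · rw [h5] at H
            exact hd1 (a i1 * a i2 * a i3 * a i4) (mem_PP4 ⟨i1, h1, rfl⟩ ⟨i2, h2, rfl⟩ ⟨i3, h3, rfl⟩ ⟨i4, h4, rfl⟩) (1 : G) (mem_PP0 _) (by simpa [mul_assoc, hxx, hx] using H)
          · exact absurd ⟨h1, h2, h3, h4, h5⟩ hno

end Pool.Agent.Work.MP_b41eab_39
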