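import Pool.Agent.Work.MP_b41eab_39.CaseI

namespace Pool.Agent.Work.MP_b41eab_39

open Cardinal Set
open scoped Pointwise

universe u

/-- Finitely many almost disjoint families at once. -/
theorem restrict_list {G P : Type u} {θ : Cardinal.{u}} {R : Set G} (hR : θ ≤ #R)
    (S : ℕ → P → Set G) (hS : ∀ t p q, p ≠ q → #(S t p ∩ S t q : Set G) < θ) (n : ℕ) :
    ∃ R' ⊆ R, θ ≤ #R' ∧ ∃ E : ℕ → Set P, (∀ t, (E t).Subsingleton) ∧
      ∀ t < n, ∀ p ∉ E t, #(R' ∩ S t p : Set G) < θ := by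
  classical
  induction n with
  | zero => exact ⟨R, Subset.rfl, hR, fun _ => ∅, fun _ => subsingleton_empty, by simp⟩
  | succ n ih =>
    obtain ⟨R1, h1, h2, E, hE, h3⟩ := ih
    obtain ⟨R2, h4, h5, e, he, h6⟩ := restrict h2 (S n) (hS n)
    refine ⟨R2, h4.trans h1, h5, Function.update E n e, ?_, ?_⟩
    · intro t
      by_cases ht : t = n
      · subst ht; simpa using he
      · simpa [ht] using hE t
    · intro t ht p hp
      by_cases htn : t = n
      · subst htn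
        exact h6 p (by simpa using hp)
      · have hp' : p ∉ E t := by simpa [htn] using hp
        exact small_subset (inter_subset_inter_left _ h4) (h3 t (by omega) p hp')

/-- The equations with two letters. -/
def SS {G : Type u} [Group G] (g : G) : ℕ → G × G → Set G
  | 0, p => {x | x * x * p.1 * x * p.2 = g}
  | 1, p => {x | x * p.1 * x * p.2 * x = g}
  | 2, p => {x | p.1 * x * p.2 * x * x = g}
  | 3, p => {x | x * p.1 * x * x * p.2 = g}
  | 4, p => {x | p.1 * x * x * p.2 * x = g}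
  | 5, p => {x | p.2 = 1 ∧ x * x * p.1 * x = g}
  | 6, p => {x | p.2 = 1 ∧ x * p.1 * x * x = g}
  | 7, p => {x | p.2 = 1 ∧ x * x * x * p.1 * x = g}
  | 8, p => {x | p.2 = 1 ∧ x * x * p.1 * x * x = g}
  | 9, p => {x | p.2 = 1 ∧ x * p.1 * x * x * x = g}
  | _, _ => ∅

theorem small_empty' {G : Type u} {θ : Cardinal.{u}} (hθ : ℵ₀ ≤ θ) : #(∅ : Set G) < θ := by
  simp [(aleph0_pos.trans_le hθ)]

/-- Two different words `b x c` agree only on a small set. -/
theorem disj1 {G : Type u} [Group G] {θ : Cardinal.{u}} (hθ : ℵ₀ ≤ θ)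
    (hc : ∀ x : G, x ≠ 1 → #(cent x) < θ) {p q : G × G} (hpq : p ≠ q) :
    #{x : G | p.1 * x * p.2 = q.1 * x * q.2} < θ := by
  by_cases h2 : p.2 = q.2
  · refine small_subset (T := ∅) ?_ (small_empty' hθ)
    intro x hx
    have hx : p.1 * x * p.2 = q.1 * x * q.2 := hx
    rw [h2] at hx
    have h5 : p.1 = q.1 := by simpa using hx
    exact (hpq (Prod.ext h5 h2)).elim
  · refine small_subset ?_ (small_conj hθ (hc (p.2 * q.2⁻¹) ?_) (p.1⁻¹ * q.1))
    · intro x hx
      have hx : p.1 * x * p.2 = q.1 * x * q.2 := hx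
      show x * (p.2 * q.2⁻¹) * x⁻¹ = p.1⁻¹ * q.1
      have h6 : x * p.2 = p.1⁻¹ * q.1 * x * q.2 := by
        have := congrArg (fun z => p.1⁻¹ * z) hx
        simpa [mul_assoc] using this
      rw [← mul_assoc, h6]; group
    · intro h
      exact h2 (mul_inv_eq_one.1 h)

/-- The same for `b x x c`, when square roots are few. -/
theorem disj2 {G : Type u} [Group G] {θ : Cardinal.{u}} (hθ : θ.IsRegular)
    (hc : ∀ x : G, x ≠ 1 → #(cent x) < θ) (hsq : ∀ k : G, #{x : G | x * x = k} < θ)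
    {p q : G × G} (hpq : p ≠ q) :
    #{x : G | p.1 * (x * x) * p.2 = q.1 * (x * x) * q.2} < θ := by
  have h := small_ex hθ (disj1 hθ.aleph0_le hc hpq) (Q := fun k x => x * x = k)
    (fun k _ => hsq k)
  refine small_subset ?_ h
  intro x hx
  exact ⟨x * x, hx, rfl⟩

/-- Regular case with few involutions. -/
theorem caseII {G : Type u} [Group G] (hreg : (#G).IsRegular)
    (hc : ∀ x : G, x ≠ 1 → #(cent x) < #G) (hI : #{x : G | x * x = 1} < #G) :
    ∃ A : Set G, #A = #G ∧ A ^ 5 ≠ Set.univ := by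
  classical
  have hinf := hreg.aleph0_le
  obtain ⟨g, hg⟩ : ∃ g : G, g ≠ 1 := by
    obtain ⟨x, -, hx⟩ := exists_of_small (R := (Set.univ : Set G)) (θ := #G) (by simp)
      (small_finite hinf (finite_singleton (1 : G)))
    exact ⟨x, hx⟩
  have hsqs : ∀ k : G, #{x : G | x * x = k} < #G := by
    intro k
    by_cases hk : k = 1
    · rw [hk]; exact hI
    · refine small_subset ?_ (hc k hk)
      intro x hx
      have hx : x * x = k := hx
      show x * k = k * x
      rw [← hx]; group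
  have hpow : ∀ k : G, k ≠ 1 → ∀ n : ℕ, #{x : G | x ^ n = k} < #G := by
    intro k hk n
    refine small_subset ?_ (hc k hk)
    intro x hx
    have hx : x ^ n = k := hx
    show x * k = k * x
    rw [← hx, ← pow_succ, ← pow_succ']
  -- almost disjointness
  have hS : ∀ (t : ℕ) (p q : G × G), p ≠ q → #(SS g t p ∩ SS g t q : Set G) < #G := by
    intro t p q hpq
    have hd1 := disj1 hinf hc hpq
    have hd2 := disj2 hreg hc hsqs hpq
    have hne : ∀ {x : G}, p.2 = 1 → q.2 = 1 → p.1 = q.1 → x ∈ (∅ : Set G) :=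
      fun h1 h2 h3 => (hpq (Prod.ext h3 (by rw [h1, h2]))).elim
    match t with
    | 0 =>
      refine small_subset ?_ hd1
      rintro x ⟨h3, h4⟩
      have h3 : x * x * p.1 * x * p.2 = g := h3
      have h4 : x * x * q.1 * x * q.2 = g := h4
      show p.1 * x * p.2 = q.1 * x * q.2
      rw [← h4] at h3
      simpa [mul_assoc] using h3
    | 1 =>
      refine small_subset ?_ hd1
      rintro x ⟨h3, h4⟩
      have h3 : x * p.1 * x * p.2 * x = g := h3
      have h4 : x * q.1 * x * q.2 * x = g := h4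
      show p.1 * x * p.2 = q.1 * x * q.2
      rw [← h4] at h3
      have h5 : x * p.1 * x * p.2 = x * q.1 * x * q.2 := by simpa using h3
      simpa [mul_assoc] using h5
    | 2 =>
      refine small_subset ?_ hd1
      rintro x ⟨h3, h4⟩
      have h3 : p.1 * x * p.2 * x * x = g := h3
      have h4 : q.1 * x * q.2 * x * x = g := h4
      show p.1 * x * p.2 = q.1 * x * q.2
      rw [← h4] at h3
      simpa using h3
    | 3 =>
      refine small_subset ?_ hd2
      rintro x ⟨h3, h4⟩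
      have h3 : x * p.1 * x * x * p.2 = g := h3
      have h4 : x * q.1 * x * x * q.2 = g := h4
      show p.1 * (x * x) * p.2 = q.1 * (x * x) * q.2
      rw [← h4] at h3
      simpa [mul_assoc] using h3
    | 4 =>
      refine small_subset ?_ hd2
      rintro x ⟨h3, h4⟩
      have h3 : p.1 * x * x * p.2 * x = g := h3
      have h4 : q.1 * x * x * q.2 * x = g := h4
      show p.1 * (x * x) * p.2 = q.1 * (x * x) * q.2
      rw [← h4] at h3
      have h5 : p.1 * x * x * p.2 = q.1 * x * x * q.2 := by simpa using h3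
      simpa [mul_assoc] using h5
    | 5 =>
      refine small_subset (T := ∅) ?_ (small_empty' hinf)
      rintro x ⟨⟨hp, h3⟩, hq, h4⟩
      rw [← h4] at h3
      exact hne hp hq (by simpa using h3)
    | 6 =>
      refine small_subset (T := ∅) ?_ (small_empty' hinf)
      rintro x ⟨⟨hp, h3⟩, hq, h4⟩
      rw [← h4] at h3
      exact hne hp hq (by simpa using h3)
    | 7 =>
      refine small_subset (T := ∅) ?_ (small_empty' hinf)
      rintro x ⟨⟨hp, h3⟩, hq, h4⟩
      rw [← h4] at h3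
      exact hne hp hq (by simpa using h3)
    | 8 =>
      refine small_subset (T := ∅) ?_ (small_empty' hinf)
      rintro x ⟨⟨hp, h3⟩, hq, h4⟩
      rw [← h4] at h3
      exact hne hp hq (by simpa using h3)
    | 9 =>
      refine small_subset (T := ∅) ?_ (small_empty' hinf)
      rintro x ⟨⟨hp, h3⟩, hq, h4⟩
      rw [← h4] at h3
      exact hne hp hq (by simpa using h3)
    | (n + 10) => exact small_subset (T := ∅) (fun x hx => hx.1) (small_empty' hinf)
  obtain ⟨R1, -, hR1c, E, hE, hR1E⟩ :=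
    restrict_list (R := (Set.univ : Set G)) (θ := #G) (by simp) (SS g) hS 10
  let F : Set G := {g} ∪ {b | ∃ t < 10, ∃ c, (b, c) ∈ E t}
  have hFfin : F.Finite := by
    refine (finite_singleton g).union ?_
    have : {b | ∃ t < 10, ∃ c, (b, c) ∈ E t} = ⋃ t ∈ Finset.range 10, Prod.fst '' (E t) := by
      ext b; simp
    rw [this]
    exact (Finset.range 10).finite_toSet.biUnion fun t _ => (hE t).finite.image _
  have hFs : #F < #G := small_finite hinf hFfin
  let R : Set G := R1 \ (F ∪ ({x | ∃ k ∈ F, x * x = k} ∪ {x | x ^ 5 = g}))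
  have hR : #G ≤ #R := large_diff hinf hR1c (small_union hinf hFs (small_union hinf
    (small_ex hreg hFs fun k _ => hsqs k) (hpow g hg 5)))
  let bad : Set G → Set G := fun B =>
    {x | ∃ u ∈ PP B, ∃ v ∈ PP B, u * x * v = g} ∪
    ({x | ∃ u ∈ PP B, ∃ v ∈ PP B, ∃ w ∈ PP B, u * x * v * x * w = g} ∪
    ({x | ∃ u ∈ PP B, ∃ v ∈ PP B, ∃ t ∈ {t : ULift.{u} ℕ | t.down < 10},
        (u, v) ∉ E t.down ∧ x ∈ R1 ∩ SS g t.down (u, v)} ∪
    ({x | ∃ u ∈ PP B, ∃ v ∈ PP B, u * v ≠ g ∧ (x ^ 3 = u⁻¹ * g * v⁻¹ ∨ x ^ 4 = u⁻¹ * g * v⁻¹)} ∪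
    ({x | ∃ b ∈ B, ∃ k ∈ F, x * b = k} ∪ {x | ∃ b ∈ B, ∃ k ∈ F, b * x = k}))))
  have hbad : ∀ B : Set G, #B < #G → #(bad B) < #G := by
    intro B hB
    have hP := small_PP hinf hB
    refine small_union hinf ?_ (small_union hinf ?_ (small_union hinf ?_ (small_union hinf ?_
      (small_union hinf ?_ ?_))))
    · refine small_ex hreg hP fun u _ => small_ex hreg hP fun v _ => ?_
      refine small_subsingleton hinf ?_
      intro x hx y hy
      have hx : u * x * v = g := hx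
      have hy : u * y * v = g := hy
      rw [← hy] at hx
      simpa using hx
    · refine small_ex hreg hP fun u _ => small_ex hreg hP fun v _ => small_ex hreg hP fun w _ => ?_
      refine small_inj (fun x => x * v) (T := {y | y * y = u⁻¹ * g * w⁻¹ * v}) ?_ ?_ (hsqs _)
      · intro x _ y _ hxy
        simpa using hxy
      · intro x hx
        have hx : u * x * v * x * w = g := hx
        show x * v * (x * v) = u⁻¹ * g * w⁻¹ * v
        rw [← hx]; group
    · refine small_ex hreg hP fun u _ => small_ex hreg hP fun v _ => ?_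
      refine small_ex hreg (small_finite hinf ?_) fun t ht => ?_
      · have : {t : ULift.{u} ℕ | t.down < 10} = ULift.down ⁻¹' (Iio 10) := rfl
        rw [this]
        exact (finite_Iio 10).preimage (ULift.down_injective.injOn)
      · by_cases huv : (u, v) ∈ E t.down
        · refine small_subset (T := ∅) ?_ (small_empty' hinf)
          intro x hx
          exact (hx.1 huv).elim
        · exact small_subset (fun x hx => hx.2) (hR1E t.down ht (u, v) huv)
    · refine small_ex hreg hP fun u _ => small_ex hreg hP fun v _ => ?_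
      by_cases huv : u * v = g
      · refine small_subset (T := ∅) ?_ (small_empty' hinf)
        intro x hx
        exact (hx.1 huv).elim
      · have hk : u⁻¹ * g * v⁻¹ ≠ 1 := by
          intro h
          apply huv
          have := congrArg (fun z => u * z * v) h
          simpa [mul_assoc] using this.symm
        refine small_subset ?_ (small_union hinf (hpow _ hk 3) (hpow _ hk 4))
        rintro x ⟨-, hx⟩
        exact hx
    · refine small_ex hreg hB fun b _ => small_ex hreg hFs fun k _ => ?_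
      refine small_subsingleton hinf ?_
      intro x hx y hy
      have hx : x * b = k := hx
      have hy : y * b = k := hy
      rw [← hy] at hx
      simpa using hx
    · refine small_ex hreg hB fun b _ => small_ex hreg hFs fun k _ => ?_
      refine small_subsingleton hinf ?_
      intro x hx y hy
      have hx : b * x = k := hx
      have hy : b * y = k := hy
      rw [← hy] at hx
      simpa using hx
  obtain ⟨a, -, hcard, ha⟩ := build (#G) (fun _ => R) (fun _ B => bad B) (by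
    intro α f hf
    have hB : #(f '' Iio α) < #G := small_image f (mk_Iio_toType_lt _ α)
    obtain ⟨x, hx, hx2⟩ := exists_of_small hR (small_union hinf hB (hbad _ hB))
    exact ⟨x, hx, fun h => hx2 (Or.inl h), fun h => hx2 (Or.inr h)⟩)
  refine ⟨range a, hcard, fun huniv => ?_⟩
  have hL : ∀ i, a i ≠ g ∧ a i ∉ F := by
    intro i
    have h1 : a i ∈ R := (ha i).1
    exact ⟨fun h => h1.2 (Or.inl (Or.inl h)), fun h => h1.2 (Or.inl h)⟩
  have hsq : ∀ i, a i * a i ∉ F := fun i h => (ha i).1.2 (Or.inr (Or.inl ⟨_, h, rfl⟩))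
  have hfl : ∀ α, ∀ b ∈ a '' Iio α, a α * b ∉ F := fun α b hb h =>
    (ha α).2 (Or.inr (Or.inr (Or.inr (Or.inr (Or.inl ⟨b, hb, _, h, rfl⟩)))))
  have hfr : ∀ α, ∀ b ∈ a '' Iio α, b * a α ∉ F := fun α b hb h =>
    (ha α).2 (Or.inr (Or.inr (Or.inr (Or.inr (Or.inr ⟨b, hb, _, h, rfl⟩)))))
  have hF : ∀ (b c : G), b ∉ F → ∀ t < 10, (b, c) ∉ E t := fun b c hb t ht h =>
    hb (Or.inr ⟨t, ht, c, h⟩)
  have hF2 : ∀ i1 i2, a i1 * a i2 ∉ F := by
    intro i1 i2 H
    obtain ⟨α, e1, e2, hno⟩ := exists_max2 i1 i2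
    rcases e1 with h1 | h1
    · rw [h1] at H
      rcases e2 with h2 | h2
      · rw [h2] at H
        exact hsq α H
      · exact hfl α _ ⟨i2, h2, rfl⟩ H
    · rcases e2 with h2 | h2
      · rw [h2] at H
        exact hfr α _ ⟨i1, h1, rfl⟩ H
      · exact absurd ⟨h1, h2⟩ hno
  obtain ⟨i1, i2, i3, i4, i5, H⟩ := mem_pow5 (x := g) (by rw [huniv]; exact Set.mem_univ _)
  obtain ⟨α, e1, e2, e3, e4, e5, hno⟩ := exists_max5 i1 i2 i3 i4 i5
  have hd1 : ∀ u ∈ PP (a '' Iio α), ∀ v ∈ PP (a '' Iio α), u * a α * v ≠ g :=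
    fun u hu v hv h => (ha α).2 (Or.inl ⟨u, hu, v, hv, h⟩)
  have hd2 : ∀ u ∈ PP (a '' Iio α), ∀ v ∈ PP (a '' Iio α), ∀ w ∈ PP (a '' Iio α),
      u * a α * v * a α * w ≠ g :=
    fun u hu v hv w hw h => (ha α).2 (Or.inr (Or.inl ⟨u, hu, v, hv, w, hw, h⟩))
  have htt : ∀ u ∈ PP (a '' Iio α), ∀ v ∈ PP (a '' Iio α), ∀ t : ℕ, ∀ ht : t < 10,
      (∀ t < 10, (u, v) ∉ E t) → a α ∉ SS g t (u, v) :=
    fun u hu v hv t ht huv h => (ha α).2 (Or.inr (Or.inr (Or.inl
      ⟨u, hu, v, hv, ⟨t⟩, ht, huv t ht, (ha α).1.1, h⟩)))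
  have hc3 : ∀ u ∈ PP (a '' Iio α), ∀ v ∈ PP (a '' Iio α), u * v ≠ g →
      u * a α * a α * a α * v ≠ g := fun u hu v hv huv h =>
    (ha α).2 (Or.inr (Or.inr (Or.inr (Or.inl ⟨u, hu, v, hv, huv, Or.inl (by rw [← h]; simp [pow_succ, mul_assoc])⟩))))
  have hc4 : ∀ u ∈ PP (a '' Iio α), ∀ v ∈ PP (a '' Iio α), u * v ≠ g →
      u * a α * a α * a α * a α * v ≠ g := fun u hu v hv huv h =>
    (ha α).2 (Or.inr (Or.inr (Or.inr (Or.inl ⟨u, hu, v, hv, huv, Or.inr (by rw [← h]; simp [pow_succ, mul_assoc])⟩))))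
  have hd5 : a α * a α * a α * a α * a α ≠ g := fun h =>
    (ha α).1.2 (Or.inr (Or.inr (by rw [← h]; show a α ^ 5 = _; simp [pow_succ, mul_assoc])))
  rcases e1 with h1 | h1
  · rw [h1] at H
    rcases e2 with h2 | h2
    · rw [h2] at H
      rcases e3 with h3 | h3
      · rw [h3] at H
        rcases e4 with h4 | h4
        · rw [h4] at H
          rcases e5 with h5 | h5
          · rw [h5] at H
            exact hd5 (by simpa [mul_assoc] using H)
          · exact hc4 (1 : G) (mem_PP0 _) (a i5) (mem_PP1 ⟨i5, h5, rfl⟩) (by simpa using (hL i5).1) (by simpa [mul_assoc] using H)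
        · rcases e5 with h5 | h5
          · rw [h5] at H
            exact htt (a i4) (mem_PP1 ⟨i4, h4, rfl⟩) (1 : G) (mem_PP0 _) 7 (by norm_num) (hF _ _ (hL i4).2) ⟨rfl, by simpa [mul_assoc] using H⟩
          · exact hc3 (1 : G) (mem_PP0 _) (a i4 * a i5) (mem_PP2 ⟨i4, h4, rfl⟩ ⟨i5, h5, rfl⟩) (fun h => hF2 i4 i5 (by rw [one_mul] at h; rw [h]; exact Or.inl rfl)) (by simpa [mul_assoc] using H)
      · rcases e4 with h4 | h4
        · rw [h4] at H
          rcases e5 with h5 | h5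
          · rw [h5] at H
            exact htt (a i3) (mem_PP1 ⟨i3, h3, rfl⟩) (1 : G) (mem_PP0 _) 8 (by norm_num) (hF _ _ (hL i3).2) ⟨rfl, by simpa [mul_assoc] using H⟩
          · exact htt (a i3) (mem_PP1 ⟨i3, h3, rfl⟩) (a i5) (mem_PP1 ⟨i5, h5, rfl⟩) 0 (by norm_num) (hF _ _ (hL i3).2) (by simpa [SS, mul_assoc] using H)
        · rcases e5 with h5 | h5
          · rw [h5] at H
            exact htt (a i3 * a i4) (mem_PP2 ⟨i3, h3, rfl⟩ ⟨i4, h4, rfl⟩) (1 : G) (mem_PP0 _) 5 (by norm_num) (hF _ _ (hF2 i3 i4)) ⟨rfl, by simpa [mul_assoc] using H⟩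
          · exact hd2 (1 : G) (mem_PP0 _) (1 : G) (mem_PP0 _) (a i3 * a i4 * a i5) (mem_PP3 ⟨i3, h3, rfl⟩ ⟨i4, h4, rfl⟩ ⟨i5, h5, rfl⟩) (by simpa [mul_assoc] using H)
    · rcases e3 with h3 | h3
      · rw [h3] at H
        rcases e4 with h4 | h4
        · rw [h4] at H
          rcases e5 with h5 | h5
          · rw [h5] at H
            exact htt (a i2) (mem_PP1 ⟨i2, h2, rfl⟩) (1 : G) (mem_PP0 _) 9 (by norm_num) (hF _ _ (hL i2).2) ⟨rfl, by simpa [mul_assoc] using H⟩
          · exact htt (a i2) (mem_PP1 ⟨i2, h2, rfl⟩) (a i5) (mem_PP1 ⟨i5, h5, rfl⟩) 3 (by norm_num) (hF _ _ (hL i2).2) (by simpa [SS, mul_assoc] using H)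
        · rcases e5 with h5 | h5
          · rw [h5] at H
            exact htt (a i2) (mem_PP1 ⟨i2, h2, rfl⟩) (a i4) (mem_PP1 ⟨i4, h4, rfl⟩) 1 (by norm_num) (hF _ _ (hL i2).2) (by simpa [SS, mul_assoc] using H)
          · exact hd2 (1 : G) (mem_PP0 _) (a i2) (mem_PP1 ⟨i2, h2, rfl⟩) (a i4 * a i5) (mem_PP2 ⟨i4, h4, rfl⟩ ⟨i5, h5, rfl⟩) (by simpa [mul_assoc] using H)
      · rcases e4 with h4 | h4
        · rw [h4] at H
          rcases e5 with h5 | h5
          · rw [h5] at H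
            exact htt (a i2 * a i3) (mem_PP2 ⟨i2, h2, rfl⟩ ⟨i3, h3, rfl⟩) (1 : G) (mem_PP0 _) 6 (by norm_num) (hF _ _ (hF2 i2 i3)) ⟨rfl, by simpa [mul_assoc] using H⟩
          · exact hd2 (1 : G) (mem_PP0 _) (a i2 * a i3) (mem_PP2 ⟨i2, h2, rfl⟩ ⟨i3, h3, rfl⟩) (a i5) (mem_PP1 ⟨i5, h5, rfl⟩) (by simpa [mul_assoc] using H)
        · rcases e5 with h5 | h5
          · rw [h5] at H
            exact hd2 (1 : G) (mem_PP0 _) (a i2 * a i3 * a i4) (mem_PP3 ⟨i2, h2, rfl⟩ ⟨i3, h3, rfl⟩ ⟨i4, h4, rfl⟩) (1 : G) (mem_PP0 _) (by simpa [mul_assoc] using H)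
          · exact hd1 (1 : G) (mem_PP0 _) (a i2 * a i3 * a i4 * a i5) (mem_PP4 ⟨i2, h2, rfl⟩ ⟨i3, h3, rfl⟩ ⟨i4, h4, rfl⟩ ⟨i5, h5, rfl⟩) (by simpa [mul_assoc] using H)
  · rcases e2 with h2 | h2
    · rw [h2] at H
      rcases e3 with h3 | h3
      · rw [h3] at H
        rcases e4 with h4 | h4
        · rw [h4] at H
          rcases e5 with h5 | h5
          · rw [h5] at H
            exact hc4 (a i1) (mem_PP1 ⟨i1, h1, rfl⟩) (1 : G) (mem_PP0 _) (by simpa using (hL i1).1) (by simpa [mul_assoc] using H)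
          · exact hc3 (a i1) (mem_PP1 ⟨i1, h1, rfl⟩) (a i5) (mem_PP1 ⟨i5, h5, rfl⟩) (fun h => hF2 i1 i5 (by rw [h]; exact Or.inl rfl)) (by simpa [mul_assoc] using H)
        · rcases e5 with h5 | h5
          · rw [h5] at H
            exact htt (a i1) (mem_PP1 ⟨i1, h1, rfl⟩) (a i4) (mem_PP1 ⟨i4, h4, rfl⟩) 4 (by norm_num) (hF _ _ (hL i1).2) (by simpa [SS, mul_assoc] using H)
          · exact hd2 (a i1) (mem_PP1 ⟨i1, h1, rfl⟩) (1 : G) (mem_PP0 _) (a i4 * a i5) (mem_PP2 ⟨i4, h4, rfl⟩ ⟨i5, h5, rfl⟩) (by simpa [mul_assoc] using H)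
      · rcases e4 with h4 | h4
        · rw [h4] at H
          rcases e5 with h5 | h5
          · rw [h5] at H
            exact htt (a i1) (mem_PP1 ⟨i1, h1, rfl⟩) (a i3) (mem_PP1 ⟨i3, h3, rfl⟩) 2 (by norm_num) (hF _ _ (hL i1).2) (by simpa [SS, mul_assoc] using H)
          · exact hd2 (a i1) (mem_PP1 ⟨i1, h1, rfl⟩) (a i3) (mem_PP1 ⟨i3, h3, rfl⟩) (a i5) (mem_PP1 ⟨i5, h5, rfl⟩) (by simpa [mul_assoc] using H)
        · rcases e5 with h5 | h5
          · rw [h5] at H
            exact hd2 (a i1) (mem_PP1 ⟨i1, h1, rfl⟩) (a i3 * a i4) (mem_PP2 ⟨i3, h3, rfl⟩ ⟨i4, h4, rfl⟩) (1 : G) (mem_PP0 _) (by simpa [mul_assoc] using H)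
          · exact hd1 (a i1) (mem_PP1 ⟨i1, h1, rfl⟩) (a i3 * a i4 * a i5) (mem_PP3 ⟨i3, h3, rfl⟩ ⟨i4, h4, rfl⟩ ⟨i5, h5, rfl⟩) (by simpa [mul_assoc] using H)
    · rcases e3 with h3 | h3
      · rw [h3] at H
        rcases e4 with h4 | h4
        · rw [h4] at H
          rcases e5 with h5 | h5
          · rw [h5] at H
            exact hc3 (a i1 * a i2) (mem_PP2 ⟨i1, h1, rfl⟩ ⟨i2, h2, rfl⟩) (1 : G) (mem_PP0 _) (fun h => hF2 i1 i2 (by rw [mul_one] at h; rw [h]; exact Or.inl rfl)) (by simpa [mul_assoc] using H)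
          · exact hd2 (a i1 * a i2) (mem_PP2 ⟨i1, h1, rfl⟩ ⟨i2, h2, rfl⟩) (1 : G) (mem_PP0 _) (a i5) (mem_PP1 ⟨i5, h5, rfl⟩) (by simpa [mul_assoc] using H)
        · rcases e5 with h5 | h5
          · rw [h5] at H
            exact hd2 (a i1 * a i2) (mem_PP2 ⟨i1, h1, rfl⟩ ⟨i2, h2, rfl⟩) (a i4) (mem_PP1 ⟨i4, h4, rfl⟩) (1 : G) (mem_PP0 _) (by simpa [mul_assoc] using H)
          · exact hd1 (a i1 * a i2) (mem_PP2 ⟨i1, h1, rfl⟩ ⟨i2, h2, rfl⟩) (a i4 * a i5) (mem_PP2 ⟨i4, h4, rfl⟩ ⟨i5, h5, rfl⟩) (by simpa [mul_assoc] using H)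
      · rcases e4 with h4 | h4
        · rw [h4] at H
          rcases e5 with h5 | h5
          · rw [h5] at H
            exact hd2 (a i1 * a i2 * a i3) (mem_PP3 ⟨i1, h1, rfl⟩ ⟨i2, h2, rfl⟩ ⟨i3, h3, rfl⟩) (1 : G) (mem_PP0 _) (1 : G) (mem_PP0 _) (by simpa [mul_assoc] using H)
          · exact hd1 (a i1 * a i2 * a i3) (mem_PP3 ⟨i1, h1, rfl⟩ ⟨i2, h2, rfl⟩ ⟨i3, h3, rfl⟩) (a i5) (mem_PP1 ⟨i5, h5, rfl⟩) (by simpa [mul_assoc] using H)
        · rcases e5 with h5 | h5
          · rw [h5] at H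
            exact hd1 (a i1 * a i2 * a i3 * a i4) (mem_PP4 ⟨i1, h1, rfl⟩ ⟨i2, h2, rfl⟩ ⟨i3, h3, rfl⟩ ⟨i4, h4, rfl⟩) (1 : G) (mem_PP0 _) (by simpa [mul_assoc] using H)
          · exact absurd ⟨h1, h2, h3, h4, h5⟩ hno

/-- Regular cardinals: trivial center and small centralizers exclude `5`-Shelah. -/
theorem partR {G : Type u} [Group G] (hreg : (#G).IsRegular)
    (hc : ∀ x : G, x ≠ 1 → #(cent x) < #G) :
    ∃ A : Set G, #A = #G ∧ A ^ 5 ≠ Set.univ := by
  rcases le_or_gt (#G) #{x : G | x * x = 1} with hI | hI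
  · exact caseI hreg hc hI
  · exact caseII hreg hc hI

end Pool.Agent.Work.MP_b41eab_39
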