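import Mathlib

namespace Pool.Agent.Work.MP_b41eab_39

open Cardinal Set
open scoped Pointwise

universe u

/-- Transfinite choice along a well order. -/
theorem exists_rec {ι G : Type u} [LinearOrder ι] [WellFoundedLT ι] [Nonempty G]
    (R : ι → Set G) (bad : ι → Set G → Set G)
    (h : ∀ α : ι, ∀ f : ι → G, (∀ β < α, f β ∈ R β) →
      ∃ x ∈ R α, x ∉ bad α (f '' Iio α)) :
    ∃ a : ι → G, ∀ α, a α ∈ R α ∧ a α ∉ bad α (a '' Iio α) := by
  classical
  let F : ∀ α : ι, (∀ β : ι, β < α → G) → G := fun α prev =>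
    if hx : ∃ x ∈ R α, x ∉ bad α {y | ∃ β, ∃ hβ : β < α, prev β hβ = y} then hx.choose
    else Classical.arbitrary G
  let a : ι → G := (wellFounded_lt (α := ι)).fix F
  have ha : ∀ α, a α = F α (fun β _ => a β) := fun α => WellFounded.fix_eq _ F α
  refine ⟨a, fun α => ?_⟩
  induction α using WellFoundedLT.induction with
  | ind α ih =>
    have hset : {y | ∃ β, ∃ _ : β < α, a β = y} = a '' Iio α := by
      ext y
      constructor
      · rintro ⟨β, hβ, rfl⟩
        exact ⟨β, hβ, rfl⟩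
      · rintro ⟨β, hβ, rfl⟩
        exact ⟨β, hβ, rfl⟩
    have hx : ∃ x ∈ R α, x ∉ bad α {y | ∃ β, ∃ _ : β < α, a β = y} := by
      rw [hset]
      exact h α a (fun β hβ => (ih β hβ).1)
    have hval : a α = hx.choose := by
      rw [ha α]
      simp only [F]
      rw [dif_pos hx]
    rw [hval, ← hset]
    exact hx.choose_spec

theorem mk_Iio_toType_lt (κ : Cardinal.{u}) (α : κ.ord.ToType) : #(Iio α) < κ := by
  exact mk_Iio_toType_ord_lt α

/-- Transfinite choice of `κ` many distinct elements. -/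
theorem build {G : Type u} [Nonempty G] (κ : Cardinal.{u})
    (R : κ.ord.ToType → Set G) (bad : κ.ord.ToType → Set G → Set G)
    (h : ∀ α : κ.ord.ToType, ∀ f : κ.ord.ToType → G, (∀ β < α, f β ∈ R β) →
      ∃ x ∈ R α, x ∉ f '' Iio α ∧ x ∉ bad α (f '' Iio α)) :
    ∃ a : κ.ord.ToType → G, Function.Injective a ∧ #(range a) = κ ∧
      ∀ α, a α ∈ R α ∧ a α ∉ bad α (a '' Iio α) := by
  obtain ⟨a, ha⟩ := exists_rec R (fun α B => B ∪ bad α B) (by
    intro α f hf
    obtain ⟨x, hx, h1, h2⟩ := h α f hf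
    exact ⟨x, hx, fun h3 => h3.elim h1 h2⟩)
  have hinj : Function.Injective a := by
    intro α β hab
    rcases lt_trichotomy α β with hlt | heq | hgt
    · exact absurd (Or.inl ⟨α, hlt, hab⟩) (ha β).2
    · exact heq
    · exact absurd (Or.inl ⟨β, hgt, hab.symm⟩) (ha α).2
  refine ⟨a, hinj, ?_, fun α => ⟨(ha α).1, fun hb => (ha α).2 (Or.inr hb)⟩⟩
  rw [mk_range_eq _ hinj, mk_ord_toType]

/-! ### Small sets with respect to a regular cardinal -/

section small

variable {G : Type u} {θ : Cardinal.{u}}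

theorem small_union (hθ : ℵ₀ ≤ θ) {S T : Set G} (hS : #S < θ) (hT : #T < θ) :
    #(S ∪ T : Set G) < θ :=
  (mk_union_le S T).trans_lt (add_lt_of_lt hθ hS hT)

theorem small_subset {S T : Set G} (h : S ⊆ T) (hT : #T < θ) : #S < θ :=
  (mk_le_mk_of_subset h).trans_lt hT

theorem small_finite (hθ : ℵ₀ ≤ θ) {S : Set G} (hS : S.Finite) : #S < θ :=
  hS.lt_aleph0.trans_le hθ

theorem small_subsingleton (hθ : ℵ₀ ≤ θ) {S : Set G} (hS : S.Subsingleton) : #S < θ :=
  small_finite hθ hS.finite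

theorem small_ex (hθ : θ.IsRegular) {P : Type u} {s : Set P} (hs : #s < θ) {Q : P → G → Prop}
    (h : ∀ p ∈ s, #{x | Q p x} < θ) : #{x | ∃ p ∈ s, Q p x} < θ := by
  have h1 : {x | ∃ p ∈ s, Q p x} = ⋃ p ∈ s, {x | Q p x} := by
    ext x
    simp
  rw [h1]
  exact (card_biUnion_lt_iff_forall_of_isRegular hθ hs).2 h

theorem small_image {H : Type u} (f : G → H) {S : Set G} (hS : #S < θ) : #(f '' S) < θ :=
  mk_image_le.trans_lt hS

theorem small_inj {H : Type u} (f : G → H) {S : Set G} {T : Set H} (hf : InjOn f S)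
    (hST : ∀ x ∈ S, f x ∈ T) (hT : #T < θ) : #S < θ := by
  have : #(f '' S) = #S := mk_image_eq_of_injOn f S hf
  rw [← this]
  exact small_subset (by rintro _ ⟨x, hx, rfl⟩; exact hST x hx) hT

/-- A large set minus a small one contains an element. -/
theorem exists_of_small {R S : Set G} (hR : θ ≤ #R) (hS : #S < θ) : ∃ x ∈ R, x ∉ S := by
  by_contra hcon
  push Not at hcon
  exact (hS.trans_le hR).not_ge (mk_le_mk_of_subset hcon)

theorem large_diff (hθ : ℵ₀ ≤ θ) {R S : Set G} (hR : θ ≤ #R) (hS : #S < θ) :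
    θ ≤ #(R \ S : Set G) := by
  by_contra hcon
  rw [not_le] at hcon
  have : R ⊆ (R \ S) ∪ S := by
    intro x hx
    by_cases h : x ∈ S
    · exact Or.inr h
    · exact Or.inl ⟨hx, h⟩
  exact ((small_subset this (small_union hθ hcon hS)).trans_le hR).false

/-- Restriction: an almost disjoint family has at most one large member after shrinking. -/
theorem restrict {P : Type u} {R : Set G} (hR : θ ≤ #R) (S : P → Set G)
    (hS : ∀ p q, p ≠ q → #(S p ∩ S q : Set G) < θ) :
    ∃ R' ⊆ R, θ ≤ #R' ∧ ∃ E : Set P, E.Subsingleton ∧ ∀ p ∉ E, #(R' ∩ S p : Set G) < θ := by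
  by_cases hex : ∃ p, θ ≤ #(R ∩ S p : Set G)
  · obtain ⟨p, hp⟩ := hex
    refine ⟨R ∩ S p, inter_subset_left, hp, {p}, subsingleton_singleton, fun q hq => ?_⟩
    refine small_subset ?_ (hS p q (fun h => hq (by simp [h])))
    intro x hx
    exact ⟨hx.1.2, hx.2⟩
  · push Not at hex
    exact ⟨R, Subset.rfl, hR, ∅, subsingleton_empty, fun p _ => hex p⟩

end small

/-! ### Products of at most four letters -/

section prods

theorem small_insert {G : Type u} {θ : Cardinal.{u}} (hθ : ℵ₀ ≤ θ) {B : Set G} (hB : #B < θ)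
    (x : G) : #(insert x B : Set G) < θ := by
  rw [insert_eq]
  exact small_union hθ (small_finite hθ (finite_singleton x)) hB

variable {G : Type u} [Group G]

/-- Products of at most four letters of `B`. -/
def PP (B : Set G) : Set G := insert 1 B * insert 1 B * insert 1 B * insert 1 B

theorem small_mul {θ : Cardinal.{u}} (hθ : ℵ₀ ≤ θ) {S T : Set G} (hS : #S < θ) (hT : #T < θ) :
    #(S * T : Set G) < θ :=
  (Cardinal.mk_mul_le).trans_lt (mul_lt_of_lt hθ hS hT)

theorem small_PP {θ : Cardinal.{u}} (hθ : ℵ₀ ≤ θ) {B : Set G} (hB : #B < θ) : #(PP B) < θ := by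
  have h := small_insert hθ hB 1
  exact small_mul hθ (small_mul hθ (small_mul hθ h h) h) h

theorem mem_PP0 (B : Set G) : (1 : G) ∈ PP B := by
  have h : (1 : G) ∈ insert 1 B := mem_insert _ _
  have := mul_mem_mul (mul_mem_mul (mul_mem_mul h h) h) h
  simpa [PP] using this

theorem mem_PP4 {B : Set G} {b c d e : G} (hb : b ∈ B) (hc : c ∈ B) (hd : d ∈ B) (he : e ∈ B) :
    b * c * d * e ∈ PP B :=
  mul_mem_mul (mul_mem_mul (mul_mem_mul (mem_insert_of_mem _ hb) (mem_insert_of_mem _ hc))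
    (mem_insert_of_mem _ hd)) (mem_insert_of_mem _ he)

theorem mem_PP3 {B : Set G} {b c d : G} (hb : b ∈ B) (hc : c ∈ B) (hd : d ∈ B) :
    b * c * d ∈ PP B := by
  have := mul_mem_mul (mul_mem_mul (mul_mem_mul (mem_insert_of_mem 1 hb) (mem_insert_of_mem 1 hc))
    (mem_insert_of_mem 1 hd)) (mem_insert (1 : G) B)
  simpa [PP] using this

theorem mem_PP2 {B : Set G} {b c : G} (hb : b ∈ B) (hc : c ∈ B) :
    b * c ∈ PP B := by
  have := mul_mem_mul (mul_mem_mul (mul_mem_mul (mem_insert_of_mem 1 hb) (mem_insert_of_mem 1 hc))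
    (mem_insert (1 : G) B)) (mem_insert (1 : G) B)
  simpa [PP] using this

theorem mem_PP1 {B : Set G} {b : G} (hb : b ∈ B) : b ∈ PP B := by
  have := mul_mem_mul (mul_mem_mul (mul_mem_mul (mem_insert_of_mem 1 hb) (mem_insert (1 : G) B))
    (mem_insert (1 : G) B)) (mem_insert (1 : G) B)
  simpa [PP] using this

/-- Centralizer as a set. -/
def cent (x : G) : Set G := {y | y * x = x * y}

theorem small_conj {θ : Cardinal.{u}} (hθ : ℵ₀ ≤ θ) {x : G} (hx : #(cent x) < θ) (w : G) :
    #{y : G | y * x * y⁻¹ = w} < θ := by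
  by_cases hne : ∃ y : G, y * x * y⁻¹ = w
  · obtain ⟨y0, hy0⟩ := hne
    refine small_inj (fun y => y0⁻¹ * y) (T := cent x) ?_ ?_ hx
    · intro a _ b _ hab
      simpa using hab
    · intro y hy
      have hy : y * x * y⁻¹ = w := hy
      show y0⁻¹ * y * x = x * (y0⁻¹ * y)
      have : y * x * y⁻¹ = y0 * x * y0⁻¹ := by rw [hy, hy0]
      have h2 : y * x = y0 * x * y0⁻¹ * y := by rw [← this]; group
      rw [mul_assoc, h2]; group
  · have : {y : G | y * x * y⁻¹ = w} = ∅ := by
      ext y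
      simp only [mem_ofPred_eq, mem_empty_iff_false, iff_false]
      exact fun h => hne ⟨y, h⟩
    rw [this]
    simp [(aleph0_pos.trans_le hθ)]

end prods

end Pool.Agent.Work.MP_b41eab_39
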