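import Pool.Agent.Work.MP_b41eab_39.Ab

namespace Pool.Agent.Work.MP_b41eab_39

open Cardinal Set
open scoped Pointwise

universe u

/-- Proper subgroups of an `n`-Shelah group are small. -/
theorem proper_small {G : Type u} [Group G] {n : ℕ}
    (hn : ∀ A : Set G, #A = #G → A ^ n = Set.univ) (H : Subgroup G) (hH : H ≠ ⊤) :
    #H < #G := by
  by_contra hcon
  rw [not_lt] at hcon
  obtain ⟨A, h1, h2⟩ := of_subgroup H hH hcon n
  exact h2 (hn A h1)

theorem mk_group_eq {G : Type u} [Group G] (H : Subgroup G) : #G = #(G ⧸ H) * #H := by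
  rw [mul_def]
  exact mk_congr Subgroup.groupEquivQuotientProdSubgroup

/-- An element whose commutators are all central is central. -/
theorem central_of_comm {G : Type u} [Group G] (hinf : ℵ₀ ≤ #G)
    (hZ : #(Subgroup.center G) < #G)
    (hprop : ∀ H : Subgroup G, H ≠ ⊤ → #H < #G) (x : G)
    (hx : ∀ y : G, x * y * x⁻¹ * y⁻¹ ∈ Subgroup.center G) : x ∈ Subgroup.center G := by
  classical
  by_contra hxZ
  have hC : Subgroup.centralizer ({x} : Set G) ≠ ⊤ := by
    intro h
    apply hxZ
    rw [Subgroup.mem_center_iff]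
    intro y
    have : y ∈ Subgroup.centralizer ({x} : Set G) := by rw [h]; trivial
    rw [Subgroup.mem_centralizer_singleton_iff] at this
    exact this
  have hCs := hprop _ hC
  let φ : G → Subgroup.center G := fun y => ⟨x * y * x⁻¹ * y⁻¹, hx y⟩
  choose r hr using fun z : {z // ∃ y, φ y = z} => z.2
  have hinj : #G ≤ #(Subgroup.center G × Subgroup.centralizer ({x} : Set G)) := by
    refine mk_le_of_injective (f := fun y : G => ((φ y : Subgroup.center G),
      (⟨(r ⟨φ y, y, rfl⟩)⁻¹ * y, ?_⟩ : Subgroup.centralizer ({x} : Set G)))) ?_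
    · rw [Subgroup.mem_centralizer_singleton_iff]
      have h1 : φ (r ⟨φ y, y, rfl⟩) = φ y := hr ⟨φ y, y, rfl⟩
      have h2 : x * (r ⟨φ y, y, rfl⟩) * x⁻¹ * (r ⟨φ y, y, rfl⟩)⁻¹ = x * y * x⁻¹ * y⁻¹ :=
        congrArg Subtype.val h1
      generalize (r ⟨φ y, y, rfl⟩) = s at h2
      have h3 : s * x⁻¹ * s⁻¹ = y * x⁻¹ * y⁻¹ := by
        have := congrArg (fun z => x⁻¹ * z) h2
        simpa [mul_assoc] using this
      have h4 : s * x * s⁻¹ = y * x * y⁻¹ := by
        have := congrArg (fun z => z⁻¹) h3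
        simpa [mul_assoc] using this
      have h5 : x * s⁻¹ * y = s⁻¹ * y * x := by
        have : s * x * s⁻¹ * y = y * x := by rw [h4]; group
        calc x * s⁻¹ * y = s⁻¹ * (s * x * s⁻¹ * y) := by group
          _ = s⁻¹ * (y * x) := by rw [this]
          _ = s⁻¹ * y * x := by group
      rw [← h5]; group
    · intro y z hyz
      have h1 : φ y = φ z := congrArg Prod.fst hyz
      have h2 : (r ⟨φ y, y, rfl⟩)⁻¹ * y = (r ⟨φ z, z, rfl⟩)⁻¹ * z :=
        congrArg (fun w => (w.2 : G)) hyz
      have h3 : r ⟨φ y, y, rfl⟩ = r ⟨φ z, z, rfl⟩ := by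
        congr 1
        exact Subtype.ext h1
      rw [h3] at h2
      simpa using h2
  rw [← mul_def] at hinj
  exact absurd hinj (not_le.2 (mul_lt_of_lt hinf hZ hCs))

theorem cent_eq {G : Type u} [Group G] (x : G) :
    cent x = (Subgroup.centralizer ({x} : Set G) : Set G) := by
  ext y
  rw [SetLike.mem_coe, Subgroup.mem_centralizer_singleton_iff]
  exact Iff.rfl

/-- Reduction to a group with small centralizers. -/
theorem reduction {G : Type u} [Group G] (hinf : ℵ₀ ≤ #G) {n : ℕ}
    (hn : ∀ A : Set G, #A = #G → A ^ n = Set.univ) (hnc : ∃ x y : G, x * y ≠ y * x) :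
    ∃ (Q : Type u) (_ : Group Q), #Q = #G ∧ (∀ A : Set Q, #A = #Q → A ^ n = Set.univ) ∧
      ∀ x : Q, x ≠ 1 → #(cent x) < #Q := by
  classical
  have hprop := proper_small hn
  have hZ : #(Subgroup.center G) < #G := by
    apply hprop
    intro h
    obtain ⟨x, y, hxy⟩ := hnc
    have : y ∈ Subgroup.center G := by rw [h]; trivial
    exact hxy (Subgroup.mem_center_iff.1 this x)
  have hQ : #(G ⧸ Subgroup.center G) = #G := by
    refine le_antisymm (mk_le_of_surjective (QuotientGroup.mk_surjective)) ?_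
    by_contra hcon
    rw [not_le] at hcon
    exact (mul_lt_of_lt hinf hcon hZ).ne (mk_group_eq (Subgroup.center G)).symm
  have hQn : ∀ A : Set (G ⧸ Subgroup.center G), #A = #(G ⧸ Subgroup.center G) →
      A ^ n = Set.univ := by
    intro A hA
    let π : G →* G ⧸ Subgroup.center G := QuotientGroup.mk' _
    have hπ : Function.Surjective π := QuotientGroup.mk'_surjective _
    have h1 : π '' (π ⁻¹' A) = A := image_preimage_eq A hπ
    have h2 : #(π ⁻¹' A) = #G := by
      refine le_antisymm (mk_set_le _) ?_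
      rw [← hQ, ← hA]
      conv_lhs => rw [← h1]
      exact mk_image_le
    have h3 := hn _ h2
    rw [← h1, ← Set.image_pow, h3, image_univ, hπ.range_eq]
  refine ⟨G ⧸ Subgroup.center G, inferInstance, hQ, hQn, ?_⟩
  intro x hx
  rw [cent_eq]
  apply proper_small hQn
  intro htop
  apply hx
  obtain ⟨g, rfl⟩ := QuotientGroup.mk_surjective x
  rw [QuotientGroup.eq_one_iff]
  apply central_of_comm hinf hZ hprop
  intro y
  rw [← QuotientGroup.eq_one_iff]
  have : (y : G ⧸ Subgroup.center G) ∈ Subgroup.centralizer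
      ({(g : G ⧸ Subgroup.center G)} : Set (G ⧸ Subgroup.center G)) := by
    rw [htop]; trivial
  rw [Subgroup.mem_centralizer_singleton_iff] at this
  show ((g * y * g⁻¹ * y⁻¹ : G) : G ⧸ Subgroup.center G) = 1
  rw [QuotientGroup.mk_mul, QuotientGroup.mk_mul, QuotientGroup.mk_mul, QuotientGroup.mk_inv,
    QuotientGroup.mk_inv, ← this]
  group

/-- Infinite groups of regular cardinality are not `5`-Shelah. -/
theorem regular_five {G : Type u} [Group G] (hreg : (#G).IsRegular) :
    ∃ A : Set G, #A = #G ∧ A ^ 5 ≠ Set.univ := by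
  by_contra hcon
  have hn : ∀ A : Set G, #A = #G → A ^ 5 = Set.univ := fun A hA => by
    by_contra h
    exact hcon ⟨A, hA, h⟩
  by_cases hnc : ∃ x y : G, x * y ≠ y * x
  · obtain ⟨Q, _, hQ, hQn, hQc⟩ := reduction hreg.aleph0_le hn hnc
    obtain ⟨A, hA, hA5⟩ := partR (G := Q) (by rw [hQ]; exact hreg) hQc
    exact hA5 (hQn A hA)
  · push Not at hnc
    let _ : CommGroup G := { ‹Group G› with mul_comm := hnc }
    exact hcon (abelian hreg.aleph0_le)

end Pool.Agent.Work.MP_b41eab_39
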