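import Pool.Agent.Work.MP_b41eab_39.Red

namespace Pool.Agent.Work.MP_b41eab_39

open Cardinal Set
open scoped Pointwise

universe u

theorem small_closure {G : Type u} [Group G] {θ : Cardinal.{u}} (hθ : ℵ₀ < θ) {B : Set G}
    (hB : #B < θ) : #(Subgroup.closure B : Set G) < θ := by
  have h1 : (Subgroup.closure B : Set G) ⊆ range (FreeGroup.lift ((↑) : B → G)) := by
    intro x hx
    have := FreeGroup.closure_eq_range B
    rw [this] at hx
    exact hx
  refine small_subset h1 ?_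
  refine (mk_range_le).trans_lt ?_
  by_cases hne : Nonempty B
  · rw [mk_freeGroup]
    exact max_lt hB hθ
  · rw [not_nonempty_iff] at hne
    exact (mk_le_aleph0).trans_lt hθ

/-- An index set of length the cofinality. -/
theorem cof_index (κ : Cardinal.{u}) :
    ∃ s : Set κ.ord.ToType, (∀ α, ∃ i ∈ s, α ≤ i) ∧ #s = κ.ord.cof ∧
      ∀ i : s, #(Iio i) < κ.ord.cof := by
  obtain ⟨s, hs, hs'⟩ := Ordinal.exists_ord_cof_eq κ.ord.ToType
  have h1 : #s = κ.ord.cof := by
    have := congrArg Ordinal.card hs'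
    simpa using this
  refine ⟨s, fun α => ?_, h1, fun i => ?_⟩
  · obtain ⟨i, hi, hi'⟩ := hs α
    exact ⟨i, hi, hi'⟩
  · rw [← h1]
    apply mk_Iio_lt
    rw [hs', h1]
    simp

/-- Fewer than cofinality many cardinals are bounded. -/
theorem exists_bound {G : Type u} {κ : Cardinal.{u}} (B : Set G) (hB : #B < κ.ord.cof)
    (f : G → Cardinal.{u}) (hf : ∀ b ∈ B, f b < κ) : ∃ l < κ, ∀ b ∈ B, f b ≤ l := by
  refine ⟨⨆ b : B, f b, iSup_lt_of_lt_cof_ord hB (fun b => hf b b.2), fun b hb => ?_⟩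
  exact le_ciSup (f := fun b : B => f b) bddAbove_of_small ⟨b, hb⟩

/-- Conjugacy classes of elements with small centralizer are large. -/
theorem mk_conj {G : Type u} [Group G] (hinf : ℵ₀ ≤ #G) {x : G} (hx : #(cent x) < #G) :
    #G ≤ #(range fun y : G => y * x * y⁻¹) := by
  by_contra hcon
  rw [not_le] at hcon
  have h1 : #G ≤ #((range fun y : G => y * x * y⁻¹) × cent x) := by
    let s : (range fun y : G => y * x * y⁻¹) → G := fun k => k.2.choose
    have hs : ∀ k, s k * x * (s k)⁻¹ = k.1 := fun k => k.2.choose_spec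
    let F : G → (range fun y : G => y * x * y⁻¹) × cent x := fun y =>
      (⟨y * x * y⁻¹, y, rfl⟩, ⟨(s ⟨y * x * y⁻¹, y, rfl⟩)⁻¹ * y, by
        have h2 := hs ⟨y * x * y⁻¹, y, rfl⟩
        generalize s ⟨y * x * y⁻¹, y, rfl⟩ = t at h2
        have h2 : t * x * t⁻¹ = y * x * y⁻¹ := h2
        show t⁻¹ * y * x = x * (t⁻¹ * y)
        have h3 : y * x = t * x * t⁻¹ * y := by rw [h2]; group
        rw [mul_assoc, h3]; group⟩)
    have hF : Function.Injective F := by
      intro a b hab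
      have h1 : (⟨a * x * a⁻¹, a, rfl⟩ : range fun y : G => y * x * y⁻¹) =
          ⟨b * x * b⁻¹, b, rfl⟩ := congrArg Prod.fst hab
      have h2 : (s ⟨a * x * a⁻¹, a, rfl⟩)⁻¹ * a = (s ⟨b * x * b⁻¹, b, rfl⟩)⁻¹ * b :=
        congrArg (fun p => (p.2 : G)) hab
      rw [h1] at h2
      simpa using h2
    exact mk_le_of_injective hF
  rw [mk_prod, lift_id, lift_id] at h1
  exact (h1.trans_lt (mul_lt_of_lt hinf hcon hx)).false

theorem exists_max4 {ι : Type u} [LinearOrder ι] (i1 i2 i3 i4 : ι) :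
    ∃ α, (i1 = α ∨ i1 < α) ∧ (i2 = α ∨ i2 < α) ∧ (i3 = α ∨ i3 < α) ∧ (i4 = α ∨ i4 < α) ∧
      ¬ (i1 < α ∧ i2 < α ∧ i3 < α ∧ i4 < α) := by
  refine ⟨max i1 (max i2 (max i3 i4)), ?_, ?_, ?_, ?_, ?_⟩
  · exact eq_or_lt_of_le (by simp)
  · exact eq_or_lt_of_le (by simp)
  · exact eq_or_lt_of_le (by simp)
  · exact eq_or_lt_of_le (by simp)
  · rintro ⟨h1, h2, h3, h4⟩
    exact lt_irrefl _ (max_lt h1 (max_lt h2 (max_lt h3 h4)))

theorem mem_pow4 {G : Type u} [Group G] {ι : Type u} {a : ι → G} {x : G}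
    (hx : x ∈ (range a) ^ 4) :
    ∃ i1 i2 i3 i4, a i1 * a i2 * a i3 * a i4 = x := by
  rw [show (4 : ℕ) = 3 + 1 from rfl, pow_succ,
    show (3 : ℕ) = 2 + 1 from rfl, pow_succ, show (2 : ℕ) = 1 + 1 from rfl, pow_succ,
    pow_one] at hx
  obtain ⟨_, ⟨_, ⟨_, ⟨i1, rfl⟩, _, ⟨i2, rfl⟩, rfl⟩, _, ⟨i3, rfl⟩, rfl⟩, _, ⟨i4, rfl⟩, rfl⟩ := hx
  exact ⟨i1, i2, i3, i4, rfl⟩

/-- Members of the closure solve linear equations. -/
theorem lin {G : Type u} [Group G] {H : Subgroup G} {u x v g : G} (hg : g ∈ H) (hu : u ∈ H)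
    (hv : v ∈ H) (h : u * x * v = g) : x ∈ H := by
  have : x = u⁻¹ * g * v⁻¹ := by rw [← h]; group
  rw [this]
  exact H.mul_mem (H.mul_mem (H.inv_mem hu) hg) (H.inv_mem hv)

/-- Words of length four: the equations in the last letter. -/
theorem final4 {G ι : Type u} [Group G] [LinearOrder ι] {a : ι → G} {g : G}
    (hH : ∀ α, a α ∉ Subgroup.closure (insert g (a '' Iio α)))
    (qxxxx : ∀ α, a α * a α * a α * a α ≠ g)
    (qxxxb : ∀ α, ∀ i < α, a α * a α * a α * a i ≠ g)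
    (qxxbx : ∀ α, ∀ i < α, a α * a α * a i * a α ≠ g)
    (qxxbb : ∀ α, ∀ i < α, ∀ j < α, a α * a α * a i * a j ≠ g)
    (qxbxx : ∀ α, ∀ i < α, a α * a i * a α * a α ≠ g)
    (qxbxb : ∀ α, ∀ i < α, ∀ j < α, a α * a i * a α * a j ≠ g)
    (qxbbx : ∀ α, ∀ i < α, ∀ j < α, a α * a i * a j * a α ≠ g)
    (qbxxx : ∀ α, ∀ i < α, a i * a α * a α * a α ≠ g)
    (qbxxb : ∀ α, ∀ i < α, ∀ j < α, a i * a α * a α * a j ≠ g)
    (qbxbx : ∀ α, ∀ i < α, ∀ j < α, a i * a α * a j * a α ≠ g)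
    (qbbxx : ∀ α, ∀ i < α, ∀ j < α, a i * a j * a α * a α ≠ g) :
    g ∉ (range a) ^ 4 := by
  intro hmem
  obtain ⟨i1, i2, i3, i4, H⟩ := mem_pow4 hmem
  obtain ⟨α, e1, e2, e3, e4, hno⟩ := exists_max4 i1 i2 i3 i4
  have hg : g ∈ Subgroup.closure (insert g (a '' Iio α)) :=
    Subgroup.subset_closure (mem_insert _ _)
  have m : ∀ {i}, i < α → a i ∈ Subgroup.closure (insert g (a '' Iio α)) := fun {i} hi =>
    Subgroup.subset_closure (mem_insert_of_mem _ ⟨i, hi, rfl⟩)
  rcases e1 with h1 | h1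
  · rw [h1] at H
    rcases e2 with h2 | h2
    · rw [h2] at H
      rcases e3 with h3 | h3
      · rw [h3] at H
        rcases e4 with h4 | h4
        · rw [h4] at H
          exact qxxxx α  H
        · exact qxxxb α i4 h4 H
      · rcases e4 with h4 | h4
        · rw [h4] at H
          exact qxxbx α i3 h3 H
        · exact qxxbb α i3 h3 i4 h4 H
    · rcases e3 with h3 | h3
      · rw [h3] at H
        rcases e4 with h4 | h4
        · rw [h4] at H
          exact qxbxx α i2 h2 H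
        · exact qxbxb α i2 h2 i4 h4 H
      · rcases e4 with h4 | h4
        · rw [h4] at H
          exact qxbbx α i2 h2 i3 h3 H
        · exact hH α (lin hg (one_mem _) (mul_mem (mul_mem (m h2) (m h3)) (m h4)) (by simpa [mul_assoc] using H))
  · rcases e2 with h2 | h2
    · rw [h2] at H
      rcases e3 with h3 | h3
      · rw [h3] at H
        rcases e4 with h4 | h4
        · rw [h4] at H
          exact qbxxx α i1 h1 H
        · exact qbxxb α i1 h1 i4 h4 H
      · rcases e4 with h4 | h4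
        · rw [h4] at H
          exact qbxbx α i1 h1 i3 h3 H
        · exact hH α (lin hg (m h1) (mul_mem (m h3) (m h4)) (by simpa [mul_assoc] using H))
    · rcases e3 with h3 | h3
      · rw [h3] at H
        rcases e4 with h4 | h4
        · rw [h4] at H
          exact qbbxx α i1 h1 i2 h2 H
        · exact hH α (lin hg (mul_mem (m h1) (m h2)) (m h4) (by simpa [mul_assoc] using H))
      · rcases e4 with h4 | h4
        · rw [h4] at H
          exact hH α (lin hg (mul_mem (mul_mem (m h1) (m h2)) (m h3)) (one_mem _) (by simpa [mul_assoc] using H))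
        · exact absurd ⟨h1, h2, h3, h4⟩ hno

end Pool.Agent.Work.MP_b41eab_39
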