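import Pool.Agent.Work.MP_b41eab_39.Sing

namespace Pool.Agent.Work.MP_b41eab_39

open Cardinal Set
open scoped Pointwise

universe u

theorem small_conj' {G : Type u} [Group G] {θ : Cardinal.{u}} (hθ : ℵ₀ ≤ θ) {x : G}
    (hx : #(cent x) < θ) (w : G) : #{y : G | y⁻¹ * x * y = w} < θ := by
  refine small_inj (fun y => y⁻¹) (T := {y : G | y * x * y⁻¹ = w}) ?_ ?_ (small_conj hθ hx w)
  · intro a _ b _ hab
    simpa using hab
  · intro y hy
    have hy : y⁻¹ * x * y = w := hy
    show y⁻¹ * x * y⁻¹⁻¹ = w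
    rw [inv_inv]; exact hy

theorem small_conj_mem {G : Type u} [Group G] {θ : Cardinal.{u}} (hθ : θ.IsRegular) {x : G}
    (hx : #(cent x) < θ) {W : Set G} (hW : #W < θ) : #{y : G | y * x * y⁻¹ ∈ W} < θ := by
  have h := small_ex hθ hW (Q := fun w y => y * x * y⁻¹ = w)
    (fun w _ => small_conj hθ.aleph0_le hx w)
  refine small_subset ?_ h
  intro y hy
  exact ⟨_, hy, rfl⟩

theorem small_conj_mem' {G : Type u} [Group G] {θ : Cardinal.{u}} (hθ : θ.IsRegular) {x : G}
    (hx : #(cent x) < θ) {W : Set G} (hW : #W < θ) : #{y : G | y⁻¹ * x * y ∈ W} < θ := by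
  have h := small_ex hθ hW (Q := fun w y => y⁻¹ * x * y = w)
    (fun w _ => small_conj' hθ.aleph0_le hx w)
  refine small_subset ?_ h
  intro y hy
  exact ⟨_, hy, rfl⟩

theorem cent_conj {G : Type u} [Group G] (x y : G) : #(cent (y * x * y⁻¹)) ≤ #(cent x) := by
  have h : InjOn (fun z : G => y⁻¹ * z * y) (cent (y * x * y⁻¹)) := by
    intro a _ b _ hab
    simpa using hab
  rw [← mk_image_eq_of_injOn _ _ h]
  refine mk_le_mk_of_subset ?_
  rintro _ ⟨z, hz, rfl⟩
  have hz : z * (y * x * y⁻¹) = y * x * y⁻¹ * z := hz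
  show y⁻¹ * z * y * x = x * (y⁻¹ * z * y)
  have h1 : y⁻¹ * z * y * x = y⁻¹ * (z * (y * x * y⁻¹)) * y := by group
  rw [h1, hz]; group

/-- Singular case with an involution. -/
theorem caseA {G : Type u} [Group G] (hs : (#G).IsSingular)
    (hc : ∀ x : G, x ≠ 1 → #(cent x) < #G) {t : G} (ht : t ≠ 1) (htt : t * t = 1) :
    ∃ A : Set G, #A = #G ∧ A ^ 4 ≠ Set.univ := by
  classical
  have hinf : ℵ₀ ≤ #G := hs.aleph0_le
  have h0 : ℵ₀ < #G := lt_of_le_of_ne hinf (fun h' => not_isSingular_aleph0 (h' ▸ hs))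
  obtain ⟨g, hg⟩ : ∃ g : G, g ≠ 1 := ⟨t, ht⟩
  let K : Set G := range fun y : G => y * t * y⁻¹
  have hK : #G ≤ #K := mk_conj hinf (hc t ht)
  have hKs : ∀ b ∈ K, b * b = 1 ∧ b ≠ 1 ∧ #(cent b) ≤ #(cent t) := by
    rintro _ ⟨y, rfl⟩
    refine ⟨?_, ?_, cent_conj t y⟩
    · have : y * t * y⁻¹ * (y * t * y⁻¹) = y * (t * t) * y⁻¹ := by group
      rw [this, htt]; group
    · intro h
      have h : y * t * y⁻¹ = 1 := h
      apply ht
      have : t = y⁻¹ * (y * t * y⁻¹) * y := by group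
      rw [this, h]; group
  let H : Set G → Subgroup G := fun B => Subgroup.closure (insert g B)
  let bad : Set G → Set G := fun B =>
    (H B : Set G) ∪ ({x | x⁻¹ * g * x ∈ (H B : Set G)} ∪
      {x | ∃ b ∈ B, x * b * x⁻¹ ∈ (H B : Set G)})
  obtain ⟨a, -, hcard, ha⟩ := build (#G) (fun _ => K) (fun _ B => bad B) (by
    intro α f hf
    have hB : #(f '' Iio α) < #G := small_image f (mk_Iio_toType_lt _ α)
    obtain ⟨θ, hθ, hlθ, hθκ⟩ := exists_regular hinf
      (max_lt (max_lt hB h0) (max_lt (hc t ht) (hc g hg)))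
    have hθ0 := hθ.aleph0_le
    have h1 : #(f '' Iio α) < θ := (le_max_left _ _).trans (le_max_left _ _) |>.trans_lt hlθ
    have h2 : ℵ₀ < θ := (le_max_right _ _).trans (le_max_left _ _) |>.trans_lt hlθ
    have h3 : #(cent t) < θ := (le_max_left _ _).trans (le_max_right _ _) |>.trans_lt hlθ
    have h4 : #(cent g) < θ := (le_max_right _ _).trans (le_max_right _ _) |>.trans_lt hlθ
    have hH : #(H (f '' Iio α) : Set G) < θ := small_closure h2 (small_insert hθ0 h1 g)
    obtain ⟨x, hx, hx2⟩ := exists_of_small (hθκ.trans hK) (small_union hθ0 h1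
      (small_union hθ0 hH (small_union hθ0 (small_conj_mem' hθ h4 hH)
        (small_ex hθ h1 (Q := fun b x => x * b * x⁻¹ ∈ (H (f '' Iio α) : Set G))
          (fun b hb => small_conj_mem hθ (by
            obtain ⟨β, hβ, rfl⟩ := hb
            exact (hKs _ (hf β hβ)).2.2.trans_lt h3) hH)))))
    exact ⟨x, hx, fun h => hx2 (Or.inl h), fun h => hx2 (Or.inr h)⟩)
  refine ⟨range a, hcard, fun huniv => ?_⟩
  have hx2 : ∀ α, a α * a α = 1 := fun α => (hKs _ (ha α).1).1
  have hxx : ∀ α z, a α * (a α * z) = z := fun α z => by rw [← mul_assoc, hx2, one_mul]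
  have hxi : ∀ α, (a α)⁻¹ = a α := fun α => inv_eq_of_mul_eq_one_left (hx2 α)
  have hH : ∀ α, a α ∉ H (a '' Iio α) := fun α h => (ha α).2 (Or.inl h)
  have hC : ∀ α, (a α)⁻¹ * g * a α ∉ H (a '' Iio α) := fun α h => (ha α).2 (Or.inr (Or.inl h))
  have hD : ∀ α, ∀ i < α, a α * a i * (a α)⁻¹ ∉ H (a '' Iio α) :=
    fun α i hi h => (ha α).2 (Or.inr (Or.inr ⟨_, ⟨i, hi, rfl⟩, h⟩))
  have hgm : ∀ α, g ∈ H (a '' Iio α) := fun α => Subgroup.subset_closure (mem_insert _ _)
  have m : ∀ {α i}, i < α → a i ∈ H (a '' Iio α) := fun {α i} hi =>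
    Subgroup.subset_closure (mem_insert_of_mem _ ⟨i, hi, rfl⟩)
  have inv2 : ∀ i j, a i * a j ≠ g := by
    intro i j h
    rcases lt_trichotomy i j with hij | rfl | hij
    · exact hH j (lin (hgm j) (m hij) (one_mem _) (by simpa using h))
    · exact hg (by rw [← h, hx2])
    · exact hH i (lin (hgm i) (one_mem _) (m hij) (by simpa using h))
  refine final4 hH ?_ ?_ ?_ ?_ ?_ ?_ ?_ ?_ ?_ ?_ ?_ (huniv ▸ Set.mem_univ g)
  · intro α h
    exact hg (by rw [← h]; simp [mul_assoc, hxx, hx2])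
  · intro α i hi h
    exact inv2 α i (by simpa [mul_assoc, hxx, hx2] using h)
  · intro α i hi h
    exact inv2 i α (by simpa [mul_assoc, hxx, hx2] using h)
  · intro α i hi j hj h
    exact inv2 i j (by simpa [mul_assoc, hxx, hx2] using h)
  · intro α i hi h
    exact inv2 α i (by simpa [mul_assoc, hxx, hx2] using h)
  · intro α i hi j hj h
    apply hD α i hi
    have : a α * a i * (a α)⁻¹ = g * (a j)⁻¹ := by rw [← h, hxi]; group
    rw [this]
    exact mul_mem (hgm α) (inv_mem (m hj))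
  · intro α i hi j hj h
    apply hC α
    have : (a α)⁻¹ * g * a α = a i * a j := by
      rw [← h]; simp [mul_assoc, hx2]
    rw [this]
    exact mul_mem (m hi) (m hj)
  · intro α i hi h
    exact inv2 i α (by simpa [mul_assoc, hxx, hx2] using h)
  · intro α i hi j hj h
    exact inv2 i j (by simpa [mul_assoc, hxx, hx2] using h)
  · intro α i hi j hj h
    apply hD α j hj
    have : a α * a j * (a α)⁻¹ = (a i)⁻¹ * g := by rw [← h, hxi]; group
    rw [this]
    exact mul_mem (inv_mem (m hi)) (hgm α)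
  · intro α i hi j hj h
    exact inv2 i j (by simpa [mul_assoc, hxx, hx2] using h)

end Pool.Agent.Work.MP_b41eab_39
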