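import Pool.Agent.Work.MP_b41eab_39.SingA

namespace Pool.Agent.Work.MP_b41eab_39

open Cardinal Set
open scoped Pointwise

universe u

/-- Square roots of conjugate elements. -/
theorem sq_conj {G : Type u} [Group G] (z y : G) :
    #{x : G | x * x = z} ≤ #{x : G | x * x = y * z * y⁻¹} := by
  have h : InjOn (fun x : G => y * x * y⁻¹) {x : G | x * x = z} := by
    intro a _ b _ hab
    simpa using hab
  rw [← mk_image_eq_of_injOn _ _ h]
  refine mk_le_mk_of_subset ?_
  rintro _ ⟨x, hx, rfl⟩
  have hx : x * x = z := hx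
  show y * x * y⁻¹ * (y * x * y⁻¹) = y * z * y⁻¹
  rw [← hx]; group

/-- The least index above. -/
theorem level {ι : Type u} [LinearOrder ι] [WellFoundedLT ι] {s : Set ι}
    (hs : ∀ α, ∃ i ∈ s, α ≤ i) : ∃ lv : ι → s, (∀ α, α ≤ lv α) ∧ Monotone lv := by
  let T : ι → Set s := fun α => {i : s | α ≤ (i : ι)}
  have hne : ∀ α : ι, (T α).Nonempty := fun α => by
    obtain ⟨i, hi, h⟩ := hs α
    exact ⟨⟨i, hi⟩, h⟩
  refine ⟨fun α => (wellFounded_lt (α := s)).min (T α) (hne α), fun α => ?_, ?_⟩
  · exact WellFounded.min_mem _ _ (hne α)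
  · intro α β hαβ
    have h1 : (wellFounded_lt (α := s)).min (T β) (hne β) ∈ T β :=
      WellFounded.min_mem _ _ (hne β)
    have h2 : (wellFounded_lt (α := s)).min (T β) (hne β) ∈ T α := hαβ.trans h1
    exact not_lt.1 (WellFounded.not_lt_min _ _ h2)

/-- A sequence of elements with more and more square roots. -/
theorem exists_roots {G : Type u} [Group G] (hs : (#G).IsSingular)
    (hc : ∀ x : G, x ≠ 1 → #(cent x) < #G) (hI : ∀ x : G, x * x = 1 → x = 1)
    (hun : ∀ l < #G, ∃ z : G, l < #{x : G | x * x = z}) {g : G} (hg : g ≠ 1)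
    {s : Set (#G).ord.ToType} (hs3 : ∀ i : s, #(Iio i) < (#G).ord.cof) :
    ∃ (z : s → G) (θ : s → Cardinal.{u}), (∀ i j, z i * z j ≠ g) ∧
      (∀ i, (θ i).IsRegular ∧ ℵ₀ < θ i ∧ #(Iio (i : (#G).ord.ToType)) < θ i ∧
        (#G).ord.cof < θ i ∧ #(cent g) < θ i ∧ θ i ≤ #{x : G | x * x = z i}) ∧
      ∀ i, ∀ k < i, #(cent (z k)) < θ i := by
  classical
  have hinf : ℵ₀ ≤ #G := hs.aleph0_le
  have h0 : ℵ₀ < #G := lt_of_le_of_ne hinf (fun h' => not_isSingular_aleph0 (h' ▸ hs))
  let good : s → Set G → G → Prop := fun i B z =>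
    (∃ θ : Cardinal.{u}, θ.IsRegular ∧ ℵ₀ < θ ∧ #(Iio (i : (#G).ord.ToType)) < θ ∧
        (#G).ord.cof < θ ∧ #(cent g) < θ ∧ θ ≤ #{x : G | x * x = z} ∧
        ∀ b ∈ B, #(cent b) < θ) ∧ z * z ≠ g ∧ ∀ b ∈ B, b * z ≠ g ∧ z * b ≠ g
  obtain ⟨z, hz⟩ := exists_rec (ι := s) (G := G) (fun _ => {z | z ≠ 1})
    (fun i B => {z | ¬ good i B z}) (by
      intro i f hf
      have hB : #(f '' Iio i) < (#G).ord.cof := mk_image_le.trans_lt (hs3 i)
      obtain ⟨l, hl, hl2⟩ := exists_bound (κ := #G) (f '' Iio i) hB (fun b => #(cent b)) (by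
        rintro _ ⟨k, hk, rfl⟩
        exact hc _ (hf k hk))
      let L : Cardinal.{u} := max (max ℵ₀ #(Iio (i : (#G).ord.ToType)))
        (max (#G).ord.cof (max #(cent g) l))
      have hL : L < #G := max_lt (max_lt h0 (mk_Iio_toType_lt _ _))
        (max_lt hs.cof_ord_lt (max_lt (hc g hg) hl))
      have hθ : (Order.succ L).IsRegular :=
        isRegular_succ ((le_max_left _ _).trans (le_max_left _ _))
      have hLθ : L < Order.succ L := Order.lt_succ L
      have hθκ : Order.succ L < #G := hs.isSuccLimit.succ_lt hL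
      obtain ⟨z0, hz0⟩ := hun _ hθκ
      have hz01 : z0 ≠ 1 := by
        rintro rfl
        have h1 : {x : G | x * x = 1} ⊆ {1} := fun x hx => hI x hx
        have h2 := small_subset h1 (small_finite hθ.aleph0_le (finite_singleton (1 : G)))
        exact (h2.trans hz0).false
      have hK := mk_conj hinf (hc z0 hz01)
      have hF1 : #{z : G | z * z = g} < #G := by
        refine small_subset ?_ (hc g hg)
        intro x hx
        have hx : x * x = g := hx
        show x * g = g * x
        rw [← hx]; group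
      have hBG : #(f '' Iio i) < #G := hB.trans hs.cof_ord_lt
      obtain ⟨z, ⟨y, rfl⟩, hz2⟩ := exists_of_small hK (small_union hinf hF1
        (small_union hinf (small_image (fun b => b⁻¹ * g) hBG)
          (small_image (fun b => g * b⁻¹) hBG)))
      refine ⟨y * z0 * y⁻¹, ?_, ?_⟩
      · intro h
        have h : y * z0 * y⁻¹ = 1 := h
        apply hz01
        have : z0 = y⁻¹ * (y * z0 * y⁻¹) * y := by group
        rw [this, h]; group
      · rw [mem_ofPred_eq, not_not]
        refine ⟨⟨Order.succ L, hθ, ?_, ?_, ?_, ?_, ?_, ?_⟩, ?_, ?_⟩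
        · exact ((le_max_left _ _).trans (le_max_left _ _)).trans_lt hLθ
        · exact ((le_max_right _ _).trans (le_max_left _ _)).trans_lt hLθ
        · exact ((le_max_left _ _).trans (le_max_right _ _)).trans_lt hLθ
        · exact (((le_max_left _ _).trans (le_max_right _ _)).trans (le_max_right _ _)).trans_lt
            hLθ
        · exact hz0.le.trans (sq_conj z0 y)
        · intro b hb
          exact ((((hl2 b hb).trans (le_max_right _ _)).trans (le_max_right _ _)).trans
            (le_max_right _ _)).trans_lt hLθ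
        · exact fun h => hz2 (Or.inl h)
        · intro b hb
          refine ⟨fun h => hz2 (Or.inr (Or.inl ⟨b, hb, ?_⟩)),
            fun h => hz2 (Or.inr (Or.inr ⟨b, hb, ?_⟩))⟩
          · show b⁻¹ * g = y * z0 * y⁻¹
            rw [← h]; group
          · show g * b⁻¹ = y * z0 * y⁻¹
            rw [← h]; group)
  have hz : ∀ i, good i (z '' Iio i) (z i) := fun i => by
    have := (hz i).2
    rwa [mem_ofPred_eq, not_not] at this
  choose θ h1 h2 h3 h4 h5 h6 h7 using fun i => (hz i).1
  refine ⟨z, θ, ?_, fun i => ⟨h1 i, h2 i, h3 i, h4 i, h5 i, h6 i⟩,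
    fun i k hk => h7 i _ ⟨k, hk, rfl⟩⟩
  intro i j h
  rcases lt_trichotomy i j with hij | rfl | hij
  · exact ((hz j).2.2 _ ⟨i, hij, rfl⟩).1 h
  · exact (hz i).2.1 h
  · exact ((hz i).2.2 _ ⟨j, hij, rfl⟩).2 h

/-- Singular case without involutions, square roots unbounded. -/
theorem caseB {G : Type u} [Group G] (hs : (#G).IsSingular)
    (hc : ∀ x : G, x ≠ 1 → #(cent x) < #G) (hI : ∀ x : G, x * x = 1 → x = 1)
    (hun : ∀ l < #G, ∃ z : G, l < #{x : G | x * x = z}) :
    ∃ A : Set G, #A = #G ∧ A ^ 4 ≠ Set.univ := by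
  classical
  have hinf : ℵ₀ ≤ #G := hs.aleph0_le
  have h0 : ℵ₀ < #G := lt_of_le_of_ne hinf (fun h' => not_isSingular_aleph0 (h' ▸ hs))
  obtain ⟨g, hg⟩ : ∃ g : G, g ≠ 1 := by
    obtain ⟨x, -, hx⟩ := exists_of_small (R := (Set.univ : Set G)) (θ := #G) (by simp)
      (small_finite hinf (finite_singleton (1 : G)))
    exact ⟨x, hx⟩
  obtain ⟨s, hs1, hs2, hs3⟩ := cof_index #G
  obtain ⟨z, θ, hzz, hθ, hcz⟩ := exists_roots hs hc hI hun hg hs3
  obtain ⟨lv, hlv, hmono⟩ := level hs1
  let H : Set G → Subgroup G := fun B => Subgroup.closure (insert g (B ∪ range z))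
  let bad : (#G).ord.ToType → Set G → Set G := fun α B =>
    (H B : Set G) ∪ ({x | x⁻¹ * g * x ∈ (H B : Set G)} ∪
      {x | ∃ b ∈ B, (∃ k < lv α, b * b = z k) ∧ x * b * x⁻¹ ∈ (H B : Set G)})
  obtain ⟨a, -, hcard, ha⟩ := build (#G) (fun α => {x | x * x = z (lv α)}) bad (by
    intro α f hf
    obtain ⟨k1, k2, k3, k4, k5, k6⟩ := hθ (lv α)
    have k0 := k1.aleph0_le
    have hB : #(f '' Iio α) < θ (lv α) := by
      refine (mk_image_le.trans (mk_le_mk_of_subset ?_)).trans_lt k3
      exact Iio_subset_Iio (hlv α)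
    have hZ : #(range z) < θ (lv α) := (mk_range_le.trans hs2.le).trans_lt k4
    have hH : #(H (f '' Iio α) : Set G) < θ (lv α) :=
      small_closure k2 (small_insert k0 (small_union k0 hB hZ) g)
    obtain ⟨x, hx, hx2⟩ := exists_of_small k6 (small_union k0 hB
      (small_union k0 hH (small_union k0 (small_conj_mem' k1 k5 hH)
        (small_ex k1 hB (Q := fun b x => (∃ k < lv α, b * b = z k) ∧
          x * b * x⁻¹ ∈ (H (f '' Iio α) : Set G)) (fun b _ => by
            by_cases hk : ∃ k < lv α, b * b = z k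
            · obtain ⟨k, hk, hbk⟩ := hk
              have hcb : #(cent b) < θ (lv α) := by
                refine small_subset ?_ (hcz (lv α) k hk)
                intro y hy
                have hy : y * b = b * y := hy
                show y * z k = z k * y
                rw [← hbk, ← mul_assoc, hy, mul_assoc, hy, mul_assoc]
              refine small_subset ?_ (small_conj_mem k1 hcb hH)
              intro x hx
              exact hx.2
            · refine small_subset (T := ∅) ?_ (small_empty' k0)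
              intro x hx
              exact hk hx.1)))))
    exact ⟨x, hx, fun h => hx2 (Or.inl h), fun h => hx2 (Or.inr h)⟩)
  refine ⟨range a, hcard, fun huniv => ?_⟩
  have hx2 : ∀ α, a α * a α = z (lv α) := fun α => (ha α).1
  have hH : ∀ α, a α ∉ H (a '' Iio α) := fun α h => (ha α).2 (Or.inl h)
  have hC : ∀ α, (a α)⁻¹ * g * a α ∉ H (a '' Iio α) := fun α h => (ha α).2 (Or.inr (Or.inl h))
  have hD : ∀ α, ∀ i < α, lv i < lv α → a α * a i * (a α)⁻¹ ∉ H (a '' Iio α) :=
    fun α i hi hl h => (ha α).2 (Or.inr (Or.inr ⟨_, ⟨i, hi, rfl⟩, ⟨_, hl, hx2 i⟩, h⟩))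
  have hgm : ∀ {α}, g ∈ H (a '' Iio α) := fun {α} => Subgroup.subset_closure (mem_insert _ _)
  have m : ∀ {α i}, i < α → a i ∈ H (a '' Iio α) := fun {α i} hi =>
    Subgroup.subset_closure (mem_insert_of_mem _ (Or.inl ⟨i, hi, rfl⟩))
  have zm : ∀ {α} k, z k ∈ H (a '' Iio α) := fun {α} k =>
    Subgroup.subset_closure (mem_insert_of_mem _ (Or.inr ⟨k, rfl⟩))
  have xm : ∀ {α} β, a β * a β ∈ H (a '' Iio α) := fun {α} β => by
    rw [hx2]; exact zm _
  have zab : ∀ k i j, z k * a i * a j ≠ g := by
    intro k i j h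
    rcases lt_trichotomy i j with hij | rfl | hij
    · exact hH j (lin hgm (mul_mem (zm k) (m hij)) (one_mem _) (by simpa using h))
    · exact hzz k (lv i) (by rw [← h, mul_assoc, hx2])
    · exact hH i (lin hgm (zm k) (m hij) h)
  have azb : ∀ k i j, a i * z k * a j ≠ g := by
    intro k i j h
    rcases lt_trichotomy i j with hij | rfl | hij
    · exact hH j (lin hgm (mul_mem (m hij) (zm k)) (one_mem _) (by simpa using h))
    · apply hC i
      have : (a i)⁻¹ * g * a i = z k * (a i * a i) := by rw [← h]; group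
      rw [this]
      exact mul_mem (zm k) (xm i)
    · exact hH i (lin hgm (one_mem _) (mul_mem (zm k) (m hij)) (by simpa [mul_assoc] using h))
  have abz : ∀ k i j, a i * a j * z k ≠ g := by
    intro k i j h
    rcases lt_trichotomy i j with hij | rfl | hij
    · exact hH j (lin hgm (m hij) (zm k) h)
    · exact hzz (lv i) k (by rw [← h, hx2])
    · exact hH i (lin hgm (one_mem _) (mul_mem (m hij) (zm k)) (by simpa [mul_assoc] using h))
  refine final4 (fun α h => hH α (Subgroup.closure_mono ?_ h)) ?_ ?_ ?_ ?_ ?_ ?_ ?_ ?_ ?_ ?_ ?_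
    (huniv ▸ Set.mem_univ g)
  · exact insert_subset_insert subset_union_left
  · intro α h
    exact hzz (lv α) (lv α) (by rw [← h, ← hx2 α]; group)
  · intro α i hi h
    exact hH α (lin hgm (xm α) (m hi) h)
  · intro α i hi h
    exact hH α (lin hgm (mul_mem (xm α) (m hi)) (one_mem _) (by simpa using h))
  · intro α i hi j hj h
    exact zab (lv α) i j (by rw [← hx2]; exact h)
  · intro α i hi h
    exact hH α (lin hgm (one_mem _) (mul_mem (m hi) (xm α)) (by simpa [mul_assoc] using h))
  · intro α i hi j hj h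
    have e1 : a α * a i * a α = g * (a j)⁻¹ := by rw [← h]; group
    rcases lt_or_eq_of_le (hmono hi.le) with hl | hl
    · apply hD α i hi hl
      have : a α * a i * (a α)⁻¹ = (a α * a i * a α) * (a α * a α)⁻¹ := by group
      rw [this, e1]
      exact mul_mem (mul_mem hgm (inv_mem (m hj))) (inv_mem (xm α))
    · apply hC j
      have e2 : a i * a i = a α * a α := by rw [hx2, hx2, hl]
      have e3 : (g * (a j)⁻¹) * (g * (a j)⁻¹) = (a α * a α) * (a α * a α) * (a α * a α) := by
        rw [← e1]
        have : a α * a i * a α * (a α * a i * a α) = a α * a i * (a α * a α) * a i * a α := by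
          group
        rw [this, ← e2]
        have : a α * a i * (a i * a i) * a i * a α = a α * (a i * a i) * (a i * a i) * a α := by
          group
        rw [this, e2]
        group
      have : (a j)⁻¹ * g * a j = g⁻¹ * ((g * (a j)⁻¹) * (g * (a j)⁻¹)) * (a j * a j) := by group
      rw [this, e3]
      exact mul_mem (mul_mem (inv_mem hgm) (mul_mem (mul_mem (xm α) (xm α)) (xm α))) (xm j)
  · intro α i hi j hj h
    apply hC α
    have : (a α)⁻¹ * g * a α = a i * a j * (a α * a α) := by rw [← h]; group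
    rw [this]
    exact mul_mem (mul_mem (m hi) (m hj)) (xm α)
  · intro α i hi h
    exact hH α (lin hgm (m hi) (xm α) (by simpa [mul_assoc] using h))
  · intro α i hi j hj h
    exact azb (lv α) i j (by rw [← hx2]; simpa [mul_assoc] using h)
  · intro α i hi j hj h
    have e1 : a α * a j * a α = (a i)⁻¹ * g := by rw [← h]; group
    rcases lt_or_eq_of_le (hmono hj.le) with hl | hl
    · apply hD α j hj hl
      have : a α * a j * (a α)⁻¹ = (a α * a j * a α) * (a α * a α)⁻¹ := by group
      rw [this, e1]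
      exact mul_mem (mul_mem (inv_mem (m hi)) hgm) (inv_mem (xm α))
    · apply hC i
      have e2 : a j * a j = a α * a α := by rw [hx2, hx2, hl]
      have e3 : ((a i)⁻¹ * g) * ((a i)⁻¹ * g) = (a α * a α) * (a α * a α) * (a α * a α) := by
        rw [← e1]
        have : a α * a j * a α * (a α * a j * a α) = a α * a j * (a α * a α) * a j * a α := by
          group
        rw [this, ← e2]
        have : a α * a j * (a j * a j) * a j * a α = a α * (a j * a j) * (a j * a j) * a α := by
          group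
        rw [this, e2]
        group
      have : (a i)⁻¹ * g * a i = (((a i)⁻¹ * g) * ((a i)⁻¹ * g)) * g⁻¹ * (a i * a i) := by group
      rw [this, e3]
      exact mul_mem (mul_mem (mul_mem (mul_mem (xm α) (xm α)) (xm α)) (inv_mem hgm)) (xm i)
  · intro α i hi j hj h
    exact abz (lv α) i j (by rw [← hx2]; simpa [mul_assoc] using h)

end Pool.Agent.Work.MP_b41eab_39
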