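import Pool.Agent.Work.MP_b41eab_39.SingC

namespace Pool.Agent.Work.MP_b41eab_39

open Cardinal Set
open scoped Pointwise

universe u

/-! ### Canonical sets in singular strong limit cardinals -/

section canon

variable {X C : Type u} {N : ℕ}

/-- Put `z` into the holes of a word. -/
def fill (u : Fin N → Option X) (z : X) : Fin N → X := fun i => (u i).getD z

/-- The letters of the word with holes lie in `Y`. -/
def Over (Y : Set X) (u : Fin N → Option X) : Prop := ∀ i y, u i = some y → y ∈ Y

/-- `z` and `x` look the same over `Y`. -/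
def SameType (F : (Fin N → X) → C) (Y : Set X) (z x : X) : Prop :=
  ∀ u, Over Y u → F (fill u z) = F (fill u x)

theorem SameType.mono {F : (Fin N → X) → C} {Y Y' : Set X} {z x : X} (h : Y ⊆ Y')
    (hs : SameType F Y' z x) : SameType F Y z x :=
  fun u hu => hs u (fun i y hy => h (hu i y hy))

theorem SameType.symm {F : (Fin N → X) → C} {Y : Set X} {z x : X}
    (hs : SameType F Y z x) : SameType F Y x z :=
  fun u hu => (hs u hu).symm

theorem SameType.trans {F : (Fin N → X) → C} {Y : Set X} {z x y : X}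
    (hs : SameType F Y z x) (ht : SameType F Y x y) : SameType F Y z y :=
  fun u hu => (hs u hu).trans (ht u hu)

theorem mk_words_le {α : Type u} {m : Cardinal.{u}} (hm : ℵ₀ ≤ m) (h : #α ≤ m) (n : ℕ) :
    #(Fin n → α) ≤ m := by
  rw [mk_pi, prod_const, mk_fin, lift_natCast, lift_uzero]
  exact (Cardinal.power_le_power_right h).trans (power_nat_le hm)

/-- End homogeneous sequences. -/
theorem endHomogeneous (F : (Fin N → X) → C) {ι : Type u} [LinearOrder ι] [WellFoundedLT ι]
    (L B : Set X) {m : Cardinal.{u}} (hm : ℵ₀ ≤ m) (hι : #ι ≤ m) (hL : #L ≤ m) (hC : #C ≤ m)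
    (hB : 2 ^ m < #B) :
    ∃ (s : ι → X) (x : X), Function.Injective s ∧ (∀ β, s β ∈ B ∧ s β ∉ L) ∧
      ∀ β, SameType F (L ∪ s '' Iio β) (s β) x := by
  classical
  obtain ⟨x0, hx0⟩ : B.Nonempty := by
    rw [Set.nonempty_iff_ne_empty]
    rintro rfl
    simp at hB
  let pick : Set X → X := fun S => if h : S.Nonempty then h.choose else x0
  have hpick : ∀ S : Set X, S.Nonempty → pick S ∈ S := by
    intro S h
    simp only [pick]
    rw [dif_pos h]
    exact h.choose_spec
  let T : X → Set X → Set X := fun x Y => {z | z ∈ B ∧ z ∉ Y ∧ SameType F Y z x}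
  let s : X → ι → X := fun x => (wellFounded_lt (α := ι)).fix
    (fun β prev => pick (T x (L ∪ {y | ∃ γ, ∃ hγ : γ < β, prev γ hγ = y})))
  have hs : ∀ x β, s x β = pick (T x (L ∪ s x '' Iio β)) := by
    intro x β
    have h1 : s x β = pick (T x (L ∪ {y | ∃ γ, ∃ _ : γ < β, s x γ = y})) :=
      WellFounded.fix_eq _ _ β
    have h2 : {y | ∃ γ, ∃ _ : γ < β, s x γ = y} = s x '' Iio β := by
      ext y
      constructor
      · rintro ⟨γ, hγ, rfl⟩
        exact ⟨γ, hγ, rfl⟩
      · rintro ⟨γ, hγ, rfl⟩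
        exact ⟨γ, hγ, rfl⟩
    rw [h1, h2]
  let code : X → ((Fin N → Option (L ⊕ ι)) → C) := fun x u =>
    F (fill (fun i => (u i).map (Sum.elim (fun y : L => (y : X)) (s x))) x)
  have hcode : ∀ x x', code x = code x' → s x = s x' := by
    intro x x' h
    funext β
    induction β using WellFoundedLT.induction with
    | ind β ih =>
      have hY : s x '' Iio β = s x' '' Iio β := by
        ext y
        constructor
        · rintro ⟨γ, hγ, rfl⟩
          exact ⟨γ, hγ, (ih γ hγ).symm⟩
        · rintro ⟨γ, hγ, rfl⟩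
          exact ⟨γ, hγ, ih γ hγ⟩
      have hst : SameType F (L ∪ s x '' Iio β) x x' := by
        intro u hu
        have hex : ∀ i, ∃ v : Option (L ⊕ ι), v.map (Sum.elim (fun y : L => (y : X)) (s x)) = u i ∧
            v.map (Sum.elim (fun y : L => (y : X)) (s x')) = u i := by
          intro i
          rcases hui : u i with _ | y
          · exact ⟨none, rfl, rfl⟩
          · rcases hu i y hui with hy | ⟨γ, hγ, rfl⟩
            · exact ⟨some (Sum.inl ⟨y, hy⟩), rfl, rfl⟩
            · refine ⟨some (Sum.inr γ), rfl, ?_⟩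
              simp only [Option.map_some, Sum.elim_inr]
              rw [ih γ hγ]
        choose v hv1 hv2 using hex
        have h3 := congrFun h v
        simp only [code] at h3
        simp only [hv1, hv2] at h3
        exact h3
      rw [hs x β, hs x' β, ← hY]
      congr 1
      ext z
      constructor
      · rintro ⟨h1, h2, h3⟩
        exact ⟨h1, h2, h3.trans hst⟩
      · rintro ⟨h1, h2, h3⟩
        exact ⟨h1, h2, h3.trans hst.symm⟩
  -- a large fibre
  have hcod : #((Fin N → Option (L ⊕ ι)) → C) ≤ 2 ^ m := by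
    have h1 : #(Option (L ⊕ ι)) ≤ m := by
      rw [mk_option, mk_sum, lift_id, lift_id]
      exact add_le_of_le hm (add_le_of_le hm hL hι) (one_le_aleph0.trans hm)
    rw [← power_def]
    have hC2 : #C ≤ 2 ^ m := hC.trans (cantor m).le
    calc #C ^ #(Fin N → Option (L ⊕ ι)) ≤ (2 ^ m) ^ #(Fin N → Option (L ⊕ ι)) :=
          Cardinal.power_le_power_right hC2
      _ ≤ (2 ^ m) ^ m := by
          apply Cardinal.power_le_power_left _ (mk_words_le hm h1 N)
          exact ((aleph0_pos.trans_le hm).trans (cantor m)).ne'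
      _ = 2 ^ m := by rw [← power_mul, mul_eq_self hm]
  have hfib : ∃ c, m < #(B ∩ code ⁻¹' {c} : Set X) := by
    by_contra hcon
    push Not at hcon
    have h1 : B ⊆ ⋃ c, (B ∩ code ⁻¹' {c}) := by
      intro x hx
      exact mem_iUnion.2 ⟨code x, hx, rfl⟩
    have h2 : #B ≤ 2 ^ m := by
      refine (mk_le_mk_of_subset h1).trans ((mk_iUnion_le _).trans ?_)
      refine (mul_le_mul' hcod (ciSup_le' hcon)).trans ?_
      exact mul_le_of_le ((hm.trans (cantor m).le)) le_rfl (cantor m).le
    exact (h2.trans_lt hB).false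
  obtain ⟨c, hc⟩ := hfib
  obtain ⟨x1, hx1, hx1c⟩ : (B ∩ code ⁻¹' {c} : Set X).Nonempty := by
    rw [Set.nonempty_iff_ne_empty]
    intro h
    rw [h] at hc
    simp at hc
  have hsmall : #(L ∪ range (s x1) : Set X) ≤ m :=
    (mk_union_le _ _).trans (add_le_of_le hm hL (mk_range_le.trans hι))
  obtain ⟨x, ⟨hx, hxc⟩, hx2⟩ := exists_of_small (θ := Order.succ m)
    (R := (B ∩ code ⁻¹' {c} : Set X)) (Order.succ_le_of_lt hc) (Order.lt_succ_of_le hsmall)
  have hsx : s x = s x1 := hcode x x1 (by rw [mem_preimage, mem_singleton_iff] at hxc hx1c; rw [hxc, hx1c])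
  have key : ∀ β, s x β ∈ T x (L ∪ s x '' Iio β) := by
    intro β
    rw [hs x β]
    refine hpick _ ⟨x, hx, ?_, fun u _ => rfl⟩
    rintro (h | ⟨γ, -, h⟩)
    · exact hx2 (Or.inl h)
    · exact hx2 (Or.inr ⟨γ, by rw [← hsx]; exact h⟩)
  refine ⟨s x, x, ?_, fun β => ⟨(key β).1, fun h => (key β).2.1 (Or.inl h)⟩,
    fun β => (key β).2.2⟩
  intro β γ hβγ
  rcases lt_trichotomy β γ with h | h | h
  · exact absurd (Or.inr ⟨β, h, hβγ⟩) (key γ).2.1
  · exact h
  · exact absurd (Or.inr ⟨γ, h, hβγ.symm⟩) (key β).2.1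

end canon

end Pool.Agent.Work.MP_b41eab_39
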