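import Pool.Agent.Work.MP_b41eab_39.Strong

namespace Pool.Agent.Work.MP_b41eab_39

open Cardinal Set
open scoped Pointwise

universe u

section step

variable {X C : Type u} {N : ℕ}

/-- A large sequence of elements of `X'`, end homogeneous over `K`, with few types. -/
theorem levels (F : (Fin N → X) → C) {κ : Cardinal.{u}} (hκ : ℵ₀ ≤ κ) (hsing : κ.ord.cof < κ)
    (hlim : ∀ m < κ, 2 ^ m < κ) (hC : #C < κ) (K : Set X) (hK : #K < κ) (X' : Set X)
    (hX' : κ ≤ #X') :
    ∃ (I J : Type u) (_ : LinearOrder I) (a : I → X) (lvl : I → J) (x : J → X),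
      #J ≤ κ.ord.cof ∧ κ ≤ #(range a) ∧ (∀ i, a i ∈ X') ∧
      ∀ i, SameType F (K ∪ a '' Iio i) (a i) (x (lvl i)) := by
  classical
  obtain ⟨s, hs1, hs2, hs3⟩ := cof_index κ
  have : Nonempty X := by
    have h1 : 0 < #X' := aleph0_pos.trans_le (hκ.trans hX')
    obtain ⟨⟨x, -⟩⟩ := mk_ne_zero_iff.1 h1.ne'
    exact ⟨x⟩
  have : Nonempty (Set X × X) := inferInstance
  have : NoMaxOrder κ.ord.ToType := Cardinal.noMaxOrder hκ
  let P : s → Set X → Set X × X → Prop := fun j L p =>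
    ∃ b : Iio (j : κ.ord.ToType) → X, range b = p.1 ∧ Function.Injective b ∧
      (∀ β, b β ∈ X' ∧ b β ∉ L) ∧ ∀ β, SameType F (L ∪ b '' Iio β) (b β) p.2
  let U : Set (Set X × X) → Set X := fun S => ⋃ q ∈ S, q.1
  have hex : ∀ j : s, ∀ f : s → Set X × X,
      (∀ i < j, f i ∈ {p : Set X × X | #p.1 ≤ #(Iio (i : κ.ord.ToType))}) →
      ∃ p ∈ {p : Set X × X | #p.1 ≤ #(Iio (j : κ.ord.ToType))},
        p ∉ {p | ¬ P j (K ∪ U (f '' Iio j)) p} := by
    intro j f hf
    have hj : #(Iio (j : κ.ord.ToType)) < κ := mk_Iio_ord_toType _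
    have hU : #(U (f '' Iio j) : Set X) ≤ κ.ord.cof * #(Iio (j : κ.ord.ToType)) := by
      have h1 : U (f '' Iio j) = ⋃ i : Iio j, (f i).1 := by
        ext y
        simp only [U, mem_iUnion, exists_prop]
        constructor
        · rintro ⟨q, ⟨i, hi, rfl⟩, hy⟩
          exact ⟨⟨i, hi⟩, hy⟩
        · rintro ⟨⟨i, hi⟩, hy⟩
          exact ⟨f i, ⟨i, hi, rfl⟩, hy⟩
      rw [h1]
      refine (mk_iUnion_le _).trans (mul_le_mul' (hs3 j).le ?_)
      refine ciSup_le' fun i => ?_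
      refine (hf i i.2).trans (mk_le_mk_of_subset ?_)
      intro γ hγ
      have h2 : ((i : s) : κ.ord.ToType) < (j : κ.ord.ToType) := i.2
      exact lt_trans (mem_Iio.1 hγ) h2
    let m : Cardinal.{u} := max (max ℵ₀ κ.ord.cof) (max (max #K #C) #(Iio (j : κ.ord.ToType)))
    have hm : m < κ := by
      refine max_lt (max_lt ?_ hsing) (max_lt (max_lt hK hC) hj)
      refine lt_of_le_of_ne hκ ?_
      rintro rfl
      have := hsing
      rw [ord_aleph0] at this
      simp at this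
    have hm0 : ℵ₀ ≤ m := (le_max_left _ _).trans (le_max_left _ _)
    have hm1 : κ.ord.cof ≤ m := (le_max_right _ _).trans (le_max_left _ _)
    have hm2 : #K ≤ m := ((le_max_left _ _).trans (le_max_left _ _)).trans (le_max_right _ _)
    have hm3 : #C ≤ m := ((le_max_right _ _).trans (le_max_left _ _)).trans (le_max_right _ _)
    have hm4 : #(Iio (j : κ.ord.ToType)) ≤ m := (le_max_right _ _).trans (le_max_right _ _)
    have hL : #(K ∪ U (f '' Iio j) : Set X) ≤ m := by
      refine (mk_union_le _ _).trans (add_le_of_le hm0 hm2 (hU.trans ?_))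
      exact mul_le_of_le hm0 hm1 hm4
    obtain ⟨b, x, hb1, hb2, hb3⟩ := endHomogeneous F (ι := Iio (j : κ.ord.ToType))
      (K ∪ U (f '' Iio j)) X' hm0 hm4 hL hm3 ((hlim m hm).trans_le hX')
    refine ⟨(range b, x), mk_range_le, ?_⟩
    rw [mem_ofPred_eq, not_not]
    exact ⟨b, rfl, hb1, hb2, hb3⟩
  obtain ⟨f, hf⟩ := exists_rec (ι := s) (G := Set X × X)
    (fun j => {p : Set X × X | #p.1 ≤ #(Iio (j : κ.ord.ToType))})
    (fun j S => {p | ¬ P j (K ∪ U S) p}) hex
  have hP : ∀ j, P j (K ∪ U (f '' Iio j)) (f j) := fun j => by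
    have := (hf j).2
    rw [mem_ofPred_eq, not_not] at this
    exact this
  choose b hb1 hb2 hb3 hb4 using hP
  refine ⟨Σₗ j : s, Iio (j : κ.ord.ToType), s, inferInstance, fun i => b (ofLex i).1 (ofLex i).2,
    fun i => (ofLex i).1, fun j => (f j).2, hs2.le, ?_, fun i => (hb3 _ _).1, ?_⟩
  · have hinj : Function.Injective
        (fun i : Σₗ j : s, Iio (j : κ.ord.ToType) => b (ofLex i).1 (ofLex i).2) := by
      rintro ⟨j, β⟩ ⟨j', β'⟩ h
      change b j β = b j' β' at h
      rcases lt_trichotomy j j' with hj | hj | hj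
      · exfalso
        refine (hb3 j' β').2 (Or.inr ?_)
        rw [← h]
        refine mem_iUnion₂.2 ⟨f j, ⟨j, hj, rfl⟩, ?_⟩
        rw [← hb1 j]
        exact mem_range_self _
      · subst hj
        rw [hb2 j h]
      · exfalso
        refine (hb3 j β).2 (Or.inr ?_)
        rw [h]
        refine mem_iUnion₂.2 ⟨f j', ⟨j', hj, rfl⟩, ?_⟩
        rw [← hb1 j']
        exact mem_range_self _
    rw [mk_range_eq _ hinj]
    have hsurj : Function.Surjective
        (fun i : Σₗ j : s, Iio (j : κ.ord.ToType) => (((ofLex i).2 : κ.ord.ToType))) := by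
      intro β
      obtain ⟨γ, hγ⟩ := exists_gt β
      obtain ⟨j, hj, hj'⟩ := hs1 γ
      exact ⟨toLex ⟨⟨j, hj⟩, ⟨β, hγ.trans_le hj'⟩⟩, rfl⟩
    have := mk_le_of_surjective hsurj
    rwa [mk_ord_toType] at this
  · rintro ⟨j, β⟩
    refine (hb4 j β).mono ?_
    rintro y (hy | ⟨⟨j', β'⟩, hi, rfl⟩)
    · exact Or.inl (Or.inl hy)
    · rcases Sigma.Lex.lt_def.1 hi with h | ⟨h, h'⟩
      · refine Or.inl (Or.inr (mem_iUnion₂.2 ⟨f j', ⟨j', h, rfl⟩, ?_⟩))
        rw [← hb1 j']
        exact mem_range_self _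
      · refine Or.inr ?_
        change j' = j at h
        subst h
        exact ⟨β', h', rfl⟩

end step

end Pool.Agent.Work.MP_b41eab_39
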