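import Pool.Agent.Work.MP_b41eab_39.StrongB

namespace Pool.Agent.Work.MP_b41eab_39

open Cardinal Set
open scoped Pointwise

universe u

section main

variable {X C : Type u} {N : ℕ}

/-- The number of letters of the word outside `K`. -/
noncomputable def outs (K : Set X) (w : Fin N → X) : ℕ := {i | w i ∉ K}.ncard

theorem canonical (F : (Fin N → X) → C) {κ : Cardinal.{u}} (hκ : ℵ₀ ≤ κ)
    (hsing : κ.ord.cof < κ) (hlim : ∀ m < κ, 2 ^ m < κ) (hC : #C < κ)
    (hcof : ℵ₀ ≤ κ.ord.cof) (m : ℕ) :
    ∀ K : Set X, #K ≤ κ.ord.cof → ∀ X' : Set X, κ ≤ #X' →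
      ∃ A : Set X, A ⊆ X' ∧ κ ≤ #A ∧ ∃ K' : Set X, K ⊆ K' ∧ #K' ≤ κ.ord.cof ∧
        ∀ w : Fin N → X, (∀ i, w i ∈ A ∪ K) → outs K w ≤ m →
          ∃ w' : Fin N → X, (∀ i, w' i ∈ K') ∧ F w = F w' := by
  classical
  induction m with
  | zero =>
    intro K hK X' hX'
    refine ⟨X', Subset.rfl, hX', K, Subset.rfl, hK, fun w _ hw2 => ⟨w, fun i => ?_, rfl⟩⟩
    by_contra hi
    have h1 : outs K w = 0 := by omega
    rw [outs, Set.ncard_eq_zero] at h1
    have h2 : i ∈ {i | w i ∉ K} := hi
    rw [h1] at h2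
    exact h2
  | succ m ih =>
    intro K hK X' hX'
    obtain ⟨I, J, hI, a, lvl, x, hJ, ha1, ha2, ha3⟩ :=
      levels F hκ hsing hlim hC K (hK.trans_lt hsing) X' hX'
    have hK1 : #(K ∪ range x : Set X) ≤ κ.ord.cof :=
      (mk_union_le _ _).trans (add_le_of_le hcof hK (mk_range_le.trans hJ))
    obtain ⟨A, hA1, hA2, K', hK'1, hK'2, hK'3⟩ := ih (K ∪ range x) hK1 (range a) ha1
    refine ⟨A, fun y hy => ?_, hA2, K', subset_union_left.trans hK'1, hK'2, fun w hw1 hw2 => ?_⟩
    · obtain ⟨i, rfl⟩ := hA1 hy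
      exact ha2 i
    rcases (Finset.univ.filter fun i => w i ∉ K).eq_empty_or_nonempty with he | hne
    · refine ⟨w, fun i => hK'1 (Or.inl ?_), rfl⟩
      by_contra hi
      have h2 : i ∈ Finset.univ.filter fun i => w i ∉ K :=
        Finset.mem_filter.2 ⟨Finset.mem_univ _, hi⟩
      rw [he] at h2
      exact absurd h2 (Finset.notMem_empty _)
    · have hq : ∀ i, w i ∉ K → ∃ q : I, a q = w i := fun i hi => by
        rcases hw1 i with h | h
        · exact hA1 h
        · exact absurd h hi
      have hIne : Nonempty I := by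
        obtain ⟨i, hi⟩ := hne
        obtain ⟨q, -⟩ := hq i (Finset.mem_filter.1 hi).2
        exact ⟨q⟩
      let q : Fin N → I := fun i => if h : w i ∉ K then (hq i h).choose else hIne.some
      have hqs : ∀ i, w i ∉ K → a (q i) = w i := fun i hi => by
        simp only [q]
        rw [dif_pos hi]
        exact (hq i hi).choose_spec
      obtain ⟨i₀, hi₀, hmax⟩ := Finset.exists_max_image
        (Finset.univ.filter fun i => w i ∉ K) q hne
      have hi₀' : w i₀ ∉ K := (Finset.mem_filter.1 hi₀).2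
      let u : Fin N → Option X := fun i => if w i = w i₀ then none else some (w i)
      have hfill : fill u (w i₀) = w := by
        funext i
        simp only [fill, u]
        by_cases h : w i = w i₀
        · rw [if_pos h, Option.getD_none, h]
        · rw [if_neg h, Option.getD_some]
      have hover : Over (K ∪ a '' Iio (q i₀)) u := by
        intro i y hy
        simp only [u] at hy
        by_cases h : w i = w i₀
        · rw [if_pos h] at hy
          exact absurd hy (by simp)
        · rw [if_neg h, Option.some.injEq] at hy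
          subst hy
          by_cases hi : w i ∈ K
          · exact Or.inl hi
          · right
            refine ⟨q i, ?_, hqs i hi⟩
            have h1 := hmax i (Finset.mem_filter.2 ⟨Finset.mem_univ _, hi⟩)
            refine lt_of_le_of_ne h1 fun h2 => h ?_
            rw [← hqs i hi, ← hqs i₀ hi₀', h2]
      have hst := ha3 (q i₀) u hover
      rw [hqs i₀ hi₀', hfill] at hst
      have hle : outs (K ∪ range x) (fill u (x (lvl (q i₀)))) ≤ m := by
        have h1 : {i | fill u (x (lvl (q i₀))) i ∉ K ∪ range x} ⊆ {i | w i ∉ K} \ {i₀} := by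
          intro i hi
          have hi' : fill u (x (lvl (q i₀))) i ∉ K ∪ range x := hi
          by_cases h : w i = w i₀
          · exfalso
            apply hi'
            simp only [fill, u]
            rw [if_pos h, Option.getD_none]
            exact Or.inr (mem_range_self _)
          · simp only [fill, u] at hi'
            rw [if_neg h, Option.getD_some] at hi'
            exact ⟨fun h3 => hi' (Or.inl h3), fun h2 => h (by rw [mem_singleton_iff.1 h2])⟩
        have h2 := Set.ncard_le_ncard h1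
        rw [Set.ncard_sdiff_singleton_of_mem hi₀'] at h2
        have h3 : {i | w i ∉ K}.ncard ≤ m + 1 := hw2
        unfold outs
        omega
      obtain ⟨w', hw'1, hw'2⟩ := hK'3 (fill u (x (lvl (q i₀)))) (fun i => by
        simp only [fill, u]
        by_cases h : w i = w i₀
        · rw [if_pos h, Option.getD_none]
          exact Or.inr (Or.inr (mem_range_self _))
        · rw [if_neg h, Option.getD_some]
          rcases hw1 i with h2 | h2
          · exact Or.inl h2
          · exact Or.inr (Or.inl h2)) hle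
      exact ⟨w', hw'1, hst.trans hw'2⟩

/-- A map of `N` variables with few values takes at most `cof κ` values on a large set. -/
theorem canonical_set (F : (Fin N → X) → C) {κ : Cardinal.{u}} (hκ : ℵ₀ ≤ κ)
    (hsing : κ.ord.cof < κ) (hlim : ∀ m < κ, 2 ^ m < κ) (hC : #C < κ)
    (hcof : ℵ₀ ≤ κ.ord.cof) (X' : Set X) (hX' : κ ≤ #X') :
    ∃ A : Set X, A ⊆ X' ∧ κ ≤ #A ∧ #(F '' {w | ∀ i, w i ∈ A}) ≤ κ.ord.cof := by
  classical
  obtain ⟨A, hA1, hA2, K', -, hK'2, hK'3⟩ :=
    canonical F hκ hsing hlim hC hcof N ∅ (by simp) X' hX'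
  refine ⟨A, hA1, hA2, ?_⟩
  have h1 : F '' {w | ∀ i, w i ∈ A} ⊆ range fun v : Fin N → K' => F fun i => (v i : X) := by
    rintro _ ⟨w, hw, rfl⟩
    obtain ⟨w', hw'1, hw'2⟩ := hK'3 w (fun i => Or.inl (hw i)) (by
      unfold outs
      refine (Set.ncard_le_ncard (Set.subset_univ _)).trans ?_
      rw [Set.ncard_univ, Nat.card_fin])
    refine ⟨fun i => ⟨w' i, hw'1 i⟩, hw'2.symm⟩
  exact (mk_le_mk_of_subset h1).trans (mk_range_le.trans (mk_words_le hcof hK'2 N))

end main

section group

variable {G : Type u} [Group G]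

/-- The factor given by the pattern. -/
def fac {B : Set G} : Bool ⊕ B → G → G
  | Sum.inl true, g => g
  | Sum.inl false, g => g⁻¹
  | Sum.inr b, _ => b

theorem strong_limit (hlim : (#G).IsStrongLimit) (hsing : ¬ (#G).IsRegular) (n : ℕ) (B : Set G)
    (hB : #B < #G) : ∃ A : Set G, #A = #G ∧ (A ∪ A⁻¹ ∪ B) ^ n ≠ Set.univ := by
  classical
  have hκ : ℵ₀ ≤ #G := hlim.aleph0_le
  have hs : (#G).ord.cof < #G := by
    by_contra hcon
    exact hsing ⟨hκ, not_lt.1 hcon⟩
  have hcof : ℵ₀ ≤ (#G).ord.cof := Ordinal.aleph0_le_cof.2 (isSuccLimit_ord hκ)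
  let m : Cardinal.{u} := max (max ℵ₀ #B) (#G).ord.cof
  have hm0 : ℵ₀ ≤ m := (le_max_left _ _).trans (le_max_left _ _)
  have hmB : #B ≤ m := (le_max_right _ _).trans (le_max_left _ _)
  have hmc : (#G).ord.cof ≤ m := le_max_right _ _
  have hm : m < #G := max_lt (max_lt (hcof.trans_lt hs) hB) hs
  have hsucc : Order.succ m ≤ #G := Order.succ_le_of_lt hm
  have hsucc' : Order.succ m < #G :=
    (Order.succ_le_of_lt (cantor m)).trans_lt (hlim.two_power_lt hm)
  obtain ⟨Dset, hD⟩ := le_mk_iff_exists_set.1 hsucc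
  have hDne : Nonempty Dset := by
    rw [← mk_ne_zero_iff, hD]
    exact (Order.bot_lt_succ m).ne'
  obtain ⟨cl, hcl⟩ : ∃ cl : G → Dset, Function.Surjective cl := by
    refine ⟨Function.invFun Subtype.val, ?_⟩
    exact Function.invFun_surjective Subtype.val_injective
  let F : (Fin n → G) → ((Fin n → Bool ⊕ B) → Dset) := fun w π =>
    cl (List.ofFn fun i => fac (π i) (w i)).prod
  have hpat : #(Fin n → Bool ⊕ B) ≤ m := by
    apply mk_words_le hm0
    rw [mk_sum, lift_uzero]
    refine add_le_of_le hm0 (le_trans ?_ hm0) hmB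
    simp
  have hC : #((Fin n → Bool ⊕ B) → Dset) < #G := by
    rw [← power_def, hD]
    refine lt_of_le_of_lt ?_ (hlim.two_power_lt hsucc')
    have h1 : ℵ₀ ≤ Order.succ m := hm0.trans (Order.le_succ m)
    calc Order.succ m ^ #(Fin n → Bool ⊕ B) ≤ Order.succ m ^ Order.succ m :=
          Cardinal.power_le_power_left (aleph0_pos.trans_le h1).ne'
            (hpat.trans (Order.le_succ m))
      _ = 2 ^ Order.succ m := power_self_eq h1
  obtain ⟨A, -, hA2, hA3⟩ := canonical_set F hκ hs (fun m hm => hlim.two_power_lt hm) hC hcof Set.univ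
    (by rw [mk_univ])
  refine ⟨A, le_antisymm (mk_set_le A) hA2, fun hcon => ?_⟩
  have hAne : A.Nonempty := by
    rw [← Set.nonempty_coe_sort, ← mk_ne_zero_iff]
    exact (aleph0_pos.trans_le (hκ.trans hA2)).ne'
  obtain ⟨a₀, ha₀⟩ := hAne
  let V : Type u := (F '' {w | ∀ i, w i ∈ A} : Set ((Fin n → Bool ⊕ B) → Dset)) ×
    (Fin n → Bool ⊕ B)
  have hV : #V ≤ m := by
    rw [mk_prod, lift_id, lift_id]
    exact mul_le_of_le hm0 (hA3.trans hmc) hpat
  have hsurj : Function.Surjective (fun v : V => (v.1 : (Fin n → Bool ⊕ B) → Dset) v.2) := by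
    intro d
    obtain ⟨g, rfl⟩ := hcl d
    have hg : g ∈ (A ∪ A⁻¹ ∪ B) ^ n := by
      rw [hcon]
      exact Set.mem_univ _
    obtain ⟨f, hf⟩ := Set.mem_pow.1 hg
    have hex : ∀ i, ∃ (p : Bool ⊕ B) (w : G), w ∈ A ∧ fac p w = (f i : G) := by
      intro i
      rcases (f i).2 with (h | h) | h
      · exact ⟨Sum.inl true, f i, h, rfl⟩
      · refine ⟨Sum.inl false, (f i : G)⁻¹, h, ?_⟩
        simp [fac]
      · exact ⟨Sum.inr ⟨f i, h⟩, a₀, ha₀, rfl⟩
    choose p w hw1 hw2 using hex
    refine ⟨⟨⟨F w, w, hw1, rfl⟩, p⟩, ?_⟩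
    simp only [F]
    rw [← hf]
    simp only [hw2]
  have h1 := mk_le_of_surjective hsurj
  rw [hD] at h1
  exact (Order.lt_succ m).not_ge (h1.trans hV)

/-- Under the generalised continuum hypothesis infinite Shelah groups have regular cardinality. -/
theorem regular_of_gch (gch : ∀ m : Cardinal.{u}, ℵ₀ ≤ m → 2 ^ m = Order.succ m)
    (hinf : ℵ₀ ≤ #G) (n : ℕ) (h : ∀ A : Set G, #A = #G → A ^ n = Set.univ) :
    (#G).IsRegular := by
  by_contra hcon
  have hlim : (#G).IsStrongLimit := by
    refine ⟨(aleph0_pos.trans_le hinf).ne', fun m hm => ?_⟩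
    rcases lt_or_ge m ℵ₀ with h1 | h1
    · exact (power_lt_aleph0 (by simpa using nat_lt_aleph0 2) h1).trans_le hinf
    · rw [gch m h1]
      refine lt_of_le_of_ne (Order.succ_le_of_lt hm) fun h2 => hcon ?_
      rw [← h2]
      exact isRegular_succ h1
  obtain ⟨A, hA1, hA2⟩ := strong_limit hlim hcon n ∅ (by
    rw [mk_emptyCollection]
    exact aleph0_pos.trans_le hinf)
  apply hA2
  rw [Set.eq_univ_iff_forall]
  intro g
  have h1 : g ∈ A ^ n := by
    rw [h A hA1]
    exact Set.mem_univ _
  exact Set.pow_subset_pow_left (subset_union_left.trans subset_union_left) h1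

end group

end Pool.Agent.Work.MP_b41eab_39
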